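import Pool.Agent.Run7.h10.OR.Cls

/-!
# The orbit under the Mumford-Tate group is the component of the torsor of the isometries of the polarization
-/

set_option autoImplicit false
set_option linter.unusedSectionVars false

open Matrix NumberField

namespace Pool.Agent.Run7.h10.OR

open Pool.Agent.Y890.MV (evX)
open Pool.Agent.Y890.SP (Qbar)
open Pool.Agent.Y890.SM (Ix tpi sp_diff sp_mul)

variable {X : Type} [Fintype X] {ι : Type} {n : ι → ℕ}

theorem Cls.orb_iff (C : Cls X n) {x : X → Qbar} (hx : (fun j => (x j : ℂ)) ∈ C.U) (Y : Tup n) (μ : ℂ) :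
    (∃ g ∈ C.G, ∃ z : ℂ, z ≠ 0 ∧ Y = tw C.w z (g * C.P fun j => (x j : ℂ)) ∧ μ = z ^ 2 * tpi) ↔
      μ ≠ 0 ∧ ∀ i, Y i * (C.Q i x).map (algebraMap Qbar ℂ) * (Y i).transpose = μ ^ C.w i • (C.J i).map (algebraMap ℚ ℂ) ∧
        tpi ^ (n i * C.w i / 2) * (Y i).det = μ ^ (n i * C.w i / 2) * (C.P (fun j => (x j : ℂ)) i).det := by
  have he : ∀ i, 2 * (n i * C.w i / 2) = C.w i * n i := by
    intro i
    have := Nat.mul_div_cancel' (C.even i).two_dvd
    rw [this, mul_comm]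
  constructor
  · rintro ⟨g, hg, z, hz, rfl, rfl⟩
    refine ⟨mul_ne_zero (pow_ne_zero _ hz) tpi_ne, fun i => ⟨?_, ?_⟩⟩
    · have h1 : tw C.w z (g * C.P fun j => (x j : ℂ)) i = z ^ C.w i • (g i * C.P (fun j => (x j : ℂ)) i) := rfl
      have h2 := sp_mul (hg i).1 (C.riemann x hx i)
      rw [h1, transpose_smul, Matrix.smul_mul, Matrix.mul_smul, Matrix.smul_mul, smul_smul, h2, smul_smul]
      congr 1
      ring
    · have h1 : tw C.w z (g * C.P fun j => (x j : ℂ)) i = z ^ C.w i • (g i * C.P (fun j => (x j : ℂ)) i) := rfl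
      rw [h1, det_smul, Fintype.card_fin, det_mul, (hg i).2, one_mul, mul_pow, ← pow_mul, ← pow_mul, he i]
      ring
  · rintro ⟨hμ, h⟩
    obtain ⟨z, hz⟩ := IsAlgClosed.exists_pow_nat_eq (μ / tpi) (n := 2) two_pos
    have hμz : μ = z ^ 2 * tpi := by rw [hz, div_mul_cancel₀ _ tpi_ne]
    have hz0 : z ≠ 0 := by
      rintro rfl
      rw [zero_pow two_ne_zero, zero_mul] at hμz
      exact hμ hμz
    set P := C.P fun j => (x j : ℂ) with hP
    have hY' : ∀ i, (z ^ C.w i)⁻¹ • Y i * (C.Q i x).map (algebraMap Qbar ℂ) * ((z ^ C.w i)⁻¹ • Y i).transpose =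
        tpi ^ C.w i • (C.J i).map (algebraMap ℚ ℂ) := by
      intro i
      rw [transpose_smul, Matrix.smul_mul, Matrix.mul_smul, Matrix.smul_mul, smul_smul, (h i).1, smul_smul]
      congr 1
      rw [hμz]
      field_simp
      ring
    have hg := fun i => sp_diff (pow_ne_zero (C.w i) tpi_ne) (C.Jx_det i) (hY' i) (C.riemann x hx i)
    refine ⟨fun i => (z ^ C.w i)⁻¹ • Y i * (P i)⁻¹, fun i => ⟨(hg i).1, ?_⟩, z, hz0, ?_, hμz⟩
    · have h3 : P i * (P i)⁻¹ = 1 := mul_nonsing_inv _ (isUnit_iff_ne_zero.2 (C.P_det hx i))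
      have h4 : (P i).det * ((P i)⁻¹).det = 1 := by rw [← det_mul, h3, det_one]
      have h5 := (h i).2
      rw [hμz, mul_pow, ← pow_mul, he i] at h5
      have h6 : (Y i).det = z ^ (C.w i * n i) * (P i).det := by
        have h7 : tpi ^ (n i * C.w i / 2) ≠ 0 := pow_ne_zero _ tpi_ne
        apply mul_left_cancel₀ h7
        linear_combination h5
      show ((z ^ C.w i)⁻¹ • Y i * (P i)⁻¹).det = 1
      rw [det_mul, det_smul, Fintype.card_fin, h6, ← inv_pow, ← pow_mul, ← mul_assoc, ← mul_pow, inv_mul_cancel₀ hz0,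
        one_pow, one_mul, h4]
    · funext i
      have h8 : tw C.w z ((fun i => (z ^ C.w i)⁻¹ • Y i * (P i)⁻¹) * P) i =
          z ^ C.w i • ((z ^ C.w i)⁻¹ • Y i * (P i)⁻¹ * P i) := rfl
      rw [h8, (hg i).2, smul_smul, mul_inv_cancel₀ (pow_ne_zero _ hz0), one_smul]

end Pool.Agent.Run7.h10.OR
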