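import Mathlib

/-!
# Isometries of complex quadratic spaces are products of reflections

Copied from `Pool.Agent.Y123.GN.E4` and `Pool.Agent.Y123.GN.E5` (starting library).
-/

set_option autoImplicit false
set_option linter.unusedSectionVars false
set_option linter.unusedSimpArgs false

open Matrix Module

namespace Pool.Agent.Run7.h10.OR

variable {n : ℕ}

/-- the bilinear form -/
def bf (J : Matrix (Fin n) (Fin n) ℂ) (u v : Fin n → ℂ) : ℂ := u ⬝ᵥ (J *ᵥ v)

/-- the operator `x ↦ b(v, x) u` -/
def ro (J : Matrix (Fin n) (Fin n) ℂ) (u v : Fin n → ℂ) : Matrix (Fin n) (Fin n) ℂ := vecMulVec u (v ᵥ* J)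

variable {J : Matrix (Fin n) (Fin n) ℂ}

theorem ro_mul (u v w x : Fin n → ℂ) : ro J u v * ro J w x = bf J v w • ro J u x := by
  unfold ro bf
  rw [vecMulVec_mul_vecMulVec, ← dotProduct_mulVec, vecMulVec_smul]

theorem ro_mulVec (u v x : Fin n → ℂ) : ro J u v *ᵥ x = bf J v x • u := by
  unfold ro bf
  rw [vecMulVec_mulVec, ← dotProduct_mulVec]
  ext i
  simp
  ring

theorem bf_add_left (u u' v : Fin n → ℂ) : bf J (u + u') v = bf J u v + bf J u' v := by
  unfold bf
  rw [add_dotProduct]

theorem bf_add_right (u v v' : Fin n → ℂ) : bf J u (v + v') = bf J u v + bf J u v' := by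
  unfold bf
  rw [mulVec_add, dotProduct_add]

theorem bf_smul_left (a : ℂ) (u v : Fin n → ℂ) : bf J (a • u) v = a * bf J u v := by
  unfold bf
  rw [smul_dotProduct, smul_eq_mul]

theorem bf_smul_right (a : ℂ) (u v : Fin n → ℂ) : bf J u (a • v) = a * bf J u v := by
  unfold bf
  rw [mulVec_smul, dotProduct_smul, smul_eq_mul]

theorem bf_neg_left (u v : Fin n → ℂ) : bf J (-u) v = -bf J u v := by
  unfold bf
  rw [neg_dotProduct]

theorem bf_neg_right (u v : Fin n → ℂ) : bf J u (-v) = -bf J u v := by
  unfold bf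
  rw [mulVec_neg, dotProduct_neg]

theorem bf_sub_left (u u' v : Fin n → ℂ) : bf J (u - u') v = bf J u v - bf J u' v := by
  unfold bf
  rw [sub_dotProduct]

theorem bf_sub_right (u v v' : Fin n → ℂ) : bf J u (v - v') = bf J u v - bf J u v' := by
  unfold bf
  rw [mulVec_sub, dotProduct_sub]

theorem ro_add_left (u u' v : Fin n → ℂ) : ro J (u + u') v = ro J u v + ro J u' v := by
  unfold ro
  rw [add_vecMulVec]

theorem ro_add_right (u v v' : Fin n → ℂ) : ro J u (v + v') = ro J u v + ro J u v' := by
  unfold ro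
  rw [add_vecMul, vecMulVec_add]

theorem ro_smul_left (a : ℂ) (u v : Fin n → ℂ) : ro J (a • u) v = a • ro J u v := by
  unfold ro
  rw [smul_vecMulVec]

theorem ro_smul_right (a : ℂ) (u v : Fin n → ℂ) : ro J u (a • v) = a • ro J u v := by
  unfold ro
  rw [smul_vecMul, vecMulVec_smul]

theorem ro_neg_left (u v : Fin n → ℂ) : ro J (-u) v = -ro J u v := by
  unfold ro
  rw [neg_vecMulVec]

theorem ro_neg_right (u v : Fin n → ℂ) : ro J u (-v) = -ro J u v := by
  unfold ro
  rw [neg_vecMul, vecMulVec_neg]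

theorem ro_sub_left (u u' v : Fin n → ℂ) : ro J (u - u') v = ro J u v - ro J u' v := by
  rw [sub_eq_add_neg, ro_add_left, ro_neg_left, ← sub_eq_add_neg]

theorem ro_sub_right (u v v' : Fin n → ℂ) : ro J u (v - v') = ro J u v - ro J u v' := by
  rw [sub_eq_add_neg, ro_add_right, ro_neg_right, ← sub_eq_add_neg]

/-- the adjoint -/
theorem ro_adj {ε : ℂ} (hε : ε * ε = 1) (hJ : Jᵀ = ε • J) (u v : Fin n → ℂ) :
    (ro J u v)ᵀ * J = ε • (J * ro J v u) := by
  unfold ro
  rw [transpose_vecMulVec, vecMulVec_mul, mul_vecMulVec]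
  have h1 : v ᵥ* J = ε • (J *ᵥ v) := by
    rw [← mulVec_transpose, hJ, smul_mulVec]
  rw [h1, smul_vecMulVec]

theorem bf_symm {ε : ℂ} (hJ : Jᵀ = ε • J) (u v : Fin n → ℂ) : bf J v u = ε * bf J u v := by
  unfold bf
  have h1 : v ⬝ᵥ (J *ᵥ u) = u ⬝ᵥ (Jᵀ *ᵥ v) := by
    rw [mulVec_transpose, dotProduct_comm u, ← dotProduct_mulVec]
  rw [h1, hJ, smul_mulVec, dotProduct_smul, smul_eq_mul]

/-- isometries have determinant `1` or `-1` -/
theorem iso_det_sq (hdet : J.det ≠ 0) {g : Matrix (Fin n) (Fin n) ℂ} (hg : gᵀ * J * g = J) : g.det * g.det = 1 := by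
  have h1 := congrArg Matrix.det hg
  rw [det_mul, det_mul, det_transpose] at h1
  have h2 : (g.det * g.det - 1) * J.det = 0 := by linear_combination h1
  have h3 := (mul_eq_zero.1 h2).resolve_right hdet
  linear_combination h3

theorem iso_mul {g h : Matrix (Fin n) (Fin n) ℂ} (hg : gᵀ * J * g = J) (hh : hᵀ * J * h = J) :
    (g * h)ᵀ * J * (g * h) = J := by
  rw [transpose_mul]
  calc hᵀ * gᵀ * J * (g * h) = hᵀ * (gᵀ * J * g) * h := by simp only [Matrix.mul_assoc]
    _ = J := by rw [hg, hh]

/-- a criterion for isometries -/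
theorem iso_of_adj {g g' : Matrix (Fin n) (Fin n) ℂ} (h1 : gᵀ * J = J * g') (h2 : g' * g = 1) : gᵀ * J * g = J := by
  rw [h1, Matrix.mul_assoc, h2, Matrix.mul_one]

theorem nondeg (hdet : J.det ≠ 0) {v : Fin n → ℂ} (hv : v ≠ 0) : ∃ w, bf J v w = 1 := by
  have h1 : v ᵥ* J ≠ 0 := by
    intro h
    apply hv
    have h2 : (v ᵥ* J) ᵥ* J⁻¹ = 0 := by rw [h, zero_vecMul]
    rw [vecMul_vecMul, mul_nonsing_inv _ (Ne.isUnit hdet), vecMul_one] at h2
    exact h2
  obtain ⟨i, hi⟩ := Function.ne_iff.1 h1
  refine ⟨((v ᵥ* J) i)⁻¹ • Pi.single i 1, ?_⟩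
  rw [bf_smul_right]
  unfold bf
  rw [dotProduct_mulVec, dotProduct_single_one]
  exact inv_mul_cancel₀ hi


/-- the reflection -/
noncomputable def rf (J : Matrix (Fin n) (Fin n) ℂ) (u : Fin n → ℂ) : Matrix (Fin n) (Fin n) ℂ :=
  1 - (2 / bf J u u) • ro J u u

theorem rf_mulVec (u x : Fin n → ℂ) : rf J u *ᵥ x = x - (2 / bf J u u * bf J u x) • u := by
  unfold rf
  rw [sub_mulVec, one_mulVec, smul_mulVec, ro_mulVec, smul_smul]

theorem rf_sq {u : Fin n → ℂ} (hu : bf J u u ≠ 0) : rf J u * rf J u = 1 := by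
  unfold rf
  simp only [Matrix.sub_mul, Matrix.mul_sub, Matrix.one_mul, Matrix.mul_one, Matrix.smul_mul, Matrix.mul_smul, ro_mul,
    smul_smul]
  have h1 : 2 / bf J u u * bf J u u = 2 := by field_simp
  rw [h1]
  module

theorem rf_iso (hJ : Jᵀ = J) {u : Fin n → ℂ} (hu : bf J u u ≠ 0) : (rf J u)ᵀ * J * rf J u = J := by
  have hJ' : Jᵀ = (1 : ℂ) • J := by rw [hJ, one_smul]
  refine iso_of_adj (g' := rf J u) ?_ (rf_sq hu)
  unfold rf
  rw [transpose_sub, transpose_one, transpose_smul, Matrix.sub_mul, Matrix.one_mul, Matrix.smul_mul,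
    ro_adj (by norm_num) hJ', Matrix.mul_sub, Matrix.mul_one, Matrix.mul_smul, one_smul]

theorem rf_det {u : Fin n → ℂ} (hu : bf J u u ≠ 0) : (rf J u).det = -1 := by
  have h1 : rf J u = 1 + replicateCol Unit (-(2 / bf J u u) • u) * replicateRow Unit (u ᵥ* J) := by
    rw [← vecMulVec_eq Unit, smul_vecMulVec]
    unfold rf ro
    module
  rw [h1, det_one_add_replicateCol_mul_replicateRow, dotProduct_smul, ← dotProduct_mulVec, smul_eq_mul]
  have h2 : u ⬝ᵥ (J *ᵥ u) = bf J u u := rfl
  rw [h2]
  field_simp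
  ring

theorem rf_smul {u : Fin n → ℂ} {a : ℂ} (ha : a ≠ 0) : rf J (a • u) = rf J u := by
  by_cases hu : bf J u u = 0
  · unfold rf
    rw [bf_smul_left, bf_smul_right, hu]
    simp
  unfold rf
  rw [ro_smul_left, ro_smul_right, bf_smul_left, bf_smul_right, smul_smul, smul_smul]
  congr 2
  field_simp

theorem rf_neg (u : Fin n → ℂ) : rf J (-u) = rf J u := by
  rw [← neg_one_smul ℂ u]
  exact rf_smul (by norm_num)

/-- a square root of the norm -/
theorem exists_unit {u : Fin n → ℂ} (hu : bf J u u ≠ 0) : ∃ v : Fin n → ℂ, bf J v v = 1 ∧ rf J v = rf J u := by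
  obtain ⟨z, hz⟩ := IsAlgClosed.exists_pow_nat_eq (bf J u u) (n := 2) (by norm_num)
  have hz0 : z ≠ 0 := by
    rintro rfl
    apply hu
    rw [← hz]
    norm_num
  refine ⟨z⁻¹ • u, ?_, rf_smul (inv_ne_zero hz0)⟩
  rw [bf_smul_left, bf_smul_right, ← hz]
  field_simp

/-- the reflections -/
def Rf (J : Matrix (Fin n) (Fin n) ℂ) : Set (Matrix (Fin n) (Fin n) ℂ) := {r | ∃ u, bf J u u ≠ 0 ∧ r = rf J u}

theorem Rf_mem {u : Fin n → ℂ} (hu : bf J u u ≠ 0) : rf J u ∈ Submonoid.closure (Rf J) :=
  Submonoid.subset_closure ⟨u, hu, rfl⟩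

theorem iso_bf {g : Matrix (Fin n) (Fin n) ℂ} (hg : gᵀ * J * g = J) (u v : Fin n → ℂ) :
    bf J (g *ᵥ u) (g *ᵥ v) = bf J u v := by
  unfold bf
  rw [mulVec_mulVec, ← vecMul_transpose, ← dotProduct_mulVec, mulVec_mulVec, ← Matrix.mul_assoc, hg]

theorem cartan_aux (hJ : Jᵀ = J) {m : ℕ} (v : Basis (Fin m) ℂ (Fin n → ℂ)) (hvv : ∀ i, bf J (v i) (v i) ≠ 0)
    (hvo : ∀ i j, i ≠ j → bf J (v i) (v j) = 0) {g : Matrix (Fin n) (Fin n) ℂ} (hg : gᵀ * J * g = J) :
    g ∈ Submonoid.closure (Rf J) := by
  have hsym : ∀ u v, bf J v u = bf J u v := by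
    intro u v
    have h1 : Jᵀ = (1 : ℂ) • J := by rw [hJ, one_smul]
    rw [bf_symm h1, one_mul]
  -- induction
  have key : ∀ q : ℕ, ∀ g : Matrix (Fin n) (Fin n) ℂ, gᵀ * J * g = J → (∀ i : Fin m, i.val + q < m → g *ᵥ v i = v i) →
      g ∈ Submonoid.closure (Rf J) := by
    intro q
    induction q with
    | zero =>
      intro g hg hfix
      have h1 : g = 1 := by
        apply Matrix.toLin'.injective
        refine v.ext fun i => ?_
        rw [toLin'_apply, toLin'_apply, one_mulVec]
        exact hfix i (by have := i.2; omega)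
      rw [h1]
      exact Submonoid.one_mem _
    | succ q ih =>
      intro g hg hfix
      by_cases hq : q < m
      · set j : Fin m := ⟨m - 1 - q, by omega⟩ with hj
        set x := g *ᵥ v j with hx
        set y := v j with hy
        have hxx : bf J x x = bf J y y := iso_bf hg _ _
        have hyx : bf J y x = bf J x y := hsym x y
        have hort : ∀ i : Fin m, i.val < j.val → bf J x (v i) = 0 ∧ bf J y (v i) = 0 := by
          intro i hi
          have hij : j ≠ i := fun h => by rw [h] at hi; exact lt_irrefl _ hi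
          refine ⟨?_, hvo _ _ hij⟩
          have h1 := hfix i (by
            have h2 : j.val = m - 1 - q := rfl
            have := j.2
            omega)
          have h3 := iso_bf hg (v j) (v i)
          rw [h1] at h3
          rw [hx, h3]
          exact hvo _ _ hij
        -- one step
        have step : ∀ s : Matrix (Fin n) (Fin n) ℂ, s ∈ Submonoid.closure (Rf J) → sᵀ * J * s = J →
            (∃ s' ∈ Submonoid.closure (Rf J), s' * s = 1) → s *ᵥ x = y →
            (∀ i : Fin m, i.val < j.val → s *ᵥ v i = v i) → g ∈ Submonoid.closure (Rf J) := by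
          intro s hs hsi hs' hsx hsv
          obtain ⟨s', hs'1, hs'2⟩ := hs'
          have h1 : s * g ∈ Submonoid.closure (Rf J) := by
            refine ih _ (iso_mul hsi hg) fun i hi => ?_
            rw [← mulVec_mulVec]
            rcases lt_or_ge i.val j.val with hlt | hge
            · rw [hfix i (by
                have h2 : j.val = m - 1 - q := rfl
                omega)]
              exact hsv i hlt
            · have h3 : i = j := by
                refine Fin.ext ?_
                have h2 : j.val = m - 1 - q := rfl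
                omega
              rw [h3]
              exact hsx
          have h2 : g = s' * (s * g) := by rw [← Matrix.mul_assoc, hs'2, Matrix.one_mul]
          rw [h2]
          exact Submonoid.mul_mem _ hs'1 h1
        by_cases hc : bf J (x - y) (x - y) = 0
        · have hc' : bf J (x + y) (x + y) ≠ 0 := by
            intro h
            apply hvv j
            rw [bf_sub_left, bf_sub_right, bf_sub_right] at hc
            rw [bf_add_left, bf_add_right, bf_add_right] at h
            linear_combination (1 / 4 : ℂ) * hc + (1 / 4 : ℂ) * h - (1 / 2 : ℂ) * hxx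
          refine step (rf J y * rf J (x + y)) (Submonoid.mul_mem _ (Rf_mem (hvv j)) (Rf_mem hc'))
            (iso_mul (rf_iso hJ (hvv j)) (rf_iso hJ hc')) ⟨rf J (x + y) * rf J y,
              Submonoid.mul_mem _ (Rf_mem hc') (Rf_mem (hvv j)), ?_⟩ ?_ ?_
          · calc rf J (x + y) * rf J y * (rf J y * rf J (x + y)) =
                rf J (x + y) * (rf J y * rf J y) * rf J (x + y) := by simp only [Matrix.mul_assoc]
              _ = 1 := by rw [rf_sq (hvv j), Matrix.mul_one, rf_sq hc']
          · rw [← mulVec_mulVec, rf_mulVec (x + y) x]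
            have h1 : 2 / bf J (x + y) (x + y) * bf J (x + y) x = 1 := by
              have h2 : bf J (x + y) (x + y) = 2 * bf J (x + y) x := by
                rw [bf_add_left, bf_add_right, bf_add_right, bf_add_left]
                linear_combination -hyx - hxx
              rw [h2] at hc' ⊢
              have h3 : bf J (x + y) x ≠ 0 := fun h => hc' (by rw [h, mul_zero])
              field_simp
            rw [h1, one_smul, rf_mulVec]
            have h4 : x - (x + y) = -y := by abel
            rw [h4, bf_neg_right]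
            have h5 : 2 / bf J y y * -bf J y y = -2 := by
              have h6 : bf J y y ≠ 0 := hvv j
              rw [mul_neg, div_mul_cancel₀ _ h6]
            rw [h5]
            module
          · intro i hi
            obtain ⟨h1, h2⟩ := hort i hi
            rw [← mulVec_mulVec, rf_mulVec (x + y), bf_add_left x y (v i), h1, h2, add_zero, mul_zero, zero_smul, sub_zero,
              rf_mulVec, h2, mul_zero, zero_smul, sub_zero]
        · refine step (rf J (x - y)) (Rf_mem hc) (rf_iso hJ hc) ⟨_, Rf_mem hc, rf_sq hc⟩ ?_ ?_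
          · rw [rf_mulVec]
            have h1 : 2 / bf J (x - y) (x - y) * bf J (x - y) x = 1 := by
              have h2 : bf J (x - y) (x - y) = 2 * bf J (x - y) x := by
                rw [bf_sub_left, bf_sub_right, bf_sub_right, bf_sub_left]
                linear_combination hyx - hxx
              rw [h2] at hc ⊢
              have h3 : bf J (x - y) x ≠ 0 := fun h => hc (by rw [h, mul_zero])
              field_simp
            rw [h1, one_smul]
            abel
          · intro i hi
            obtain ⟨h1, h2⟩ := hort i hi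
            rw [rf_mulVec, bf_sub_left x y (v i), h1, h2, sub_zero, mul_zero, zero_smul, sub_zero]
      · refine ih g hg fun i hi => ?_
        have := i.2
        exact hfix i (by omega)
  exact key m g hg fun i hi => absurd hi (by omega)

/-- **Isometries are products of reflections.** -/
theorem cartan (hJ : Jᵀ = J) (hdet : J.det ≠ 0) {g : Matrix (Fin n) (Fin n) ℂ} (hg : gᵀ * J * g = J) :
    g ∈ Submonoid.closure (Rf J) := by
  have hsym : ∀ u v, bf J v u = bf J u v := by
    intro u v
    have h1 : Jᵀ = (1 : ℂ) • J := by rw [hJ, one_smul]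
    rw [bf_symm h1, one_mul]
  -- an orthogonal basis
  set b : LinearMap.BilinForm ℂ (Fin n → ℂ) := Matrix.toLinearMap₂' ℂ J with hb
  have hba : ∀ u v, b u v = bf J u v := by
    intro u v
    rw [hb, Matrix.toLinearMap₂'_apply']
    rfl
  have hbs : LinearMap.IsSymm b := ⟨fun u v => by
    rw [hba, hba]
    exact hsym v u⟩
  obtain ⟨v, hv⟩ := LinearMap.BilinForm.exists_orthogonal_basis (K := ℂ) (B := b) hbs
  have hsep : b.SeparatingLeft := by
    intro u hu
    by_contra hne
    obtain ⟨w, hw⟩ := nondeg hdet hne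
    have h1 := hu w
    rw [hba, hw] at h1
    exact one_ne_zero h1
  refine cartan_aux hJ v ?_ ?_ hg
  · intro i h
    refine hv.not_isOrtho_basis_self_of_separatingLeft hsep i ?_
    rw [hba]
    exact h
  · intro i j hij
    have h1 := hv hij
    have h2 : b (v i) (v j) = 0 := h1
    rwa [hba] at h2

end Pool.Agent.Run7.h10.OR
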