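import Pool.Agent.N207.GS.Om
import Pool.Agent.Y890.SM.Fam

/-!
# Families of motives with arbitrary monodromy: definitions
-/

set_option autoImplicit false
set_option linter.unusedSectionVars false

open Matrix NumberField

namespace Pool.Agent.Run7.h10.OR

open Pool.Agent.Y890.MV (evX InnerM)
open Pool.Agent.Y890.SP (Qbar)
open Pool.Agent.Y890.SM (Ix tpi)

/-- tuples of square matrices, of sizes `n i` (elements of the algebra of the endomorphisms of a graded space) -/
abbrev Tup {ι : Type} (n : ι → ℕ) : Type := ∀ i, Matrix (Fin (n i)) (Fin (n i)) ℂ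

/-- the entries of the matrices -/
def ent {ι : Type} {n : ι → ℕ} (Y : Tup n) : Ix n → ℂ := fun q => Y q.1 q.2.1 q.2.2

/-- the homothety `z ^ w i` on the `i`-th matrix -/
noncomputable def tw {ι : Type} {n : ι → ℕ} (w : ι → ℕ) (z : ℂ) (Y : Tup n) : Tup n := fun i => z ^ w i • Y i

/-- A family of motives `M = ⨁ M i`, `M i` pure of weight `w i` and rank `n i`, over the open set `U` of the space with
coordinates indexed by `X`, whose Mumford-Tate group is generated by the homotheties and a connected group `G` of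
monodromy.
`P x` are the matrices of the periods, analytic on `U` (rows: a basis of the Betti realization, columns: a basis of the
de Rham realization). `Γ` is a set of tuples of matrices (the monodromy) such that the polynomial relations over `ℂ[x]`
between the entries of `P x` on `U` are relations between the entries of `γ * P x`. `G` is an irreducible set of tuples of
invertible matrices which contains `1` and is contained in the Zariski closure of `Γ` (for example the connected component
of this Zariski closure). `I` is a set of invariants of `G`: polynomials `F` over the field of algebraic numbers in the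
entries of a tuple `Y` with `F (g * Y) = F Y`, homogeneous of weight `2 * k` with respect to the homotheties, such that
`F (P x)` is an algebraic multiple of `(2 π i) ^ k` for all `x` in `U` with algebraic coordinates (as it is for periods of
algebraic or absolute Hodge cycles), and which separate the orbits `G * Y` of tuples of invertible matrices. -/
structure Fam (X : Type) [Fintype X] {ι : Type} (n : ι → ℕ) where
  U : Set (X → ℂ)
  isOpen : IsOpen U
  conn : IsPreconnected U
  nonempty : U.Nonempty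
  P : (X → ℂ) → Tup n
  an : ∀ i l j, AnalyticOnNhd ℂ (fun x => P x i l j) U
  unit : ∀ x : X → Qbar, (fun j => (x j : ℂ)) ∈ U → ∀ i, (P (fun j => (x j : ℂ)) i).det ≠ 0
  w : ι → ℕ
  Γ : Set (Tup n)
  mon : ∀ γ ∈ Γ, ∀ p : MvPolynomial (Ix n) (MvPolynomial X ℂ),
    (∀ x ∈ U, evX x (ent (P x)) p = 0) → ∀ x ∈ U, evX x (ent (γ * P x)) p = 0
  G : Set (Tup n)
  one : 1 ∈ G
  unitG : ∀ g ∈ G, ∀ i, (g i).det ≠ 0
  irr : ∀ A B : MvPolynomial (Ix n) ℂ,
    (∀ g ∈ G, MvPolynomial.eval (ent g) A * MvPolynomial.eval (ent g) B = 0) →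
    (∀ g ∈ G, MvPolynomial.eval (ent g) A = 0) ∨ ∀ g ∈ G, MvPolynomial.eval (ent g) B = 0
  sub : ∀ R : MvPolynomial (Ix n) ℂ, (∀ γ ∈ Γ, MvPolynomial.eval (ent γ) R = 0) →
    ∀ g ∈ G, MvPolynomial.eval (ent g) R = 0
  I : Set (MvPolynomial (Ix n) Qbar × ℕ)
  inv : ∀ F ∈ I, ∀ g ∈ G, ∀ Y : Tup n, MvPolynomial.aeval (ent (g * Y)) F.1 = MvPolynomial.aeval (ent Y) F.1
  hom : ∀ F ∈ I, ∀ (z : ℂ) (Y : Tup n), z ≠ 0 →
    MvPolynomial.aeval (ent (tw w z Y)) F.1 = z ^ (2 * F.2) * MvPolynomial.aeval (ent Y) F.1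
  alg : ∀ x : X → Qbar, (fun j => (x j : ℂ)) ∈ U → ∀ F ∈ I, ∃ a : Qbar,
    MvPolynomial.aeval (ent (P fun j => (x j : ℂ))) F.1 = (a : ℂ) * tpi ^ F.2
  sep : ∀ A B : Tup n, (∀ i, (A i).det ≠ 0) → (∀ i, (B i).det ≠ 0) →
    (∀ F ∈ I, MvPolynomial.aeval (ent A) F.1 = MvPolynomial.aeval (ent B) F.1) → ∃ g ∈ G, A = g * B

/-- A family of motives `M = ⨁ M i`, `M i` of weight `w i` and rank `n i`, over the open set `U`, with classical monodromy:
`P x i` are the matrices of the periods, analytic in `x`; `J i` is the matrix of the polarization on the Betti realization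
(rational, symmetric for even and alternating for odd `w i`), `Q i x` its matrix on the de Rham realization, for `x` in
`U` with algebraic coordinates, and `P Q Pᵀ = (2 π i) ^ w J`. `Γ` is a set of tuples of matrices (the monodromy) such that
the polynomial relations over `ℂ[x]` between the entries of `P x` on `U` are relations between the entries of `γ * P x`,
and every polynomial which vanishes on `Γ` vanishes on the product of the special orthogonal groups (`w i` even) and the
symplectic groups (`w i` odd) of the forms `J i`. -/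
structure Cls (X : Type) [Fintype X] {ι : Type} (n : ι → ℕ) where
  U : Set (X → ℂ)
  isOpen : IsOpen U
  conn : IsPreconnected U
  nonempty : U.Nonempty
  P : (X → ℂ) → Tup n
  an : ∀ i l j, AnalyticOnNhd ℂ (fun x => P x i l j) U
  w : ι → ℕ
  J : ∀ i, Matrix (Fin (n i)) (Fin (n i)) ℚ
  J_det : ∀ i, (J i).det ≠ 0
  J_symm : ∀ i, (J i).transpose = (-1 : ℚ) ^ w i • J i
  Q : ∀ i, (X → Qbar) → Matrix (Fin (n i)) (Fin (n i)) Qbar
  riemann : ∀ x : X → Qbar, (fun j => (x j : ℂ)) ∈ U → ∀ i,
    P (fun j => (x j : ℂ)) i * (Q i x).map (algebraMap Qbar ℂ) * (P (fun j => (x j : ℂ)) i).transpose =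
      tpi ^ w i • (J i).map (algebraMap ℚ ℂ)
  Γ : Set (Tup n)
  mon : ∀ γ ∈ Γ, ∀ p : MvPolynomial (Ix n) (MvPolynomial X ℂ),
    (∀ x ∈ U, evX x (ent (P x)) p = 0) → ∀ x ∈ U, evX x (ent (γ * P x)) p = 0
  dense : ∀ R : MvPolynomial (Ix n) ℂ, (∀ γ ∈ Γ, MvPolynomial.eval (ent γ) R = 0) → ∀ M : Tup n,
    (∀ i, M i * (J i).map (algebraMap ℚ ℂ) * (M i).transpose = (J i).map (algebraMap ℚ ℂ) ∧ (M i).det = 1) →
    MvPolynomial.eval (ent M) R = 0

/-- the product of the special orthogonal and the symplectic groups -/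
def Cls.G {X : Type} [Fintype X] {ι : Type} {n : ι → ℕ} (C : Cls X n) : Set (Tup n) :=
  {M | ∀ i, M i * (C.J i).map (algebraMap ℚ ℂ) * (M i).transpose = (C.J i).map (algebraMap ℚ ℂ) ∧ (M i).det = 1}

/-- the polynomial in the entries of the tuple `Y` with coefficients `∑ a, ξ a * c l a`, of degree at most `k` in each
entry -/
noncomputable def poly {ι : Type} [Fintype ι] [DecidableEq ι] {n : ι → ℕ} {k : ℕ}
    (c : (Ix n → Fin (k + 1)) → Fin k → ℂ) (ξ : Fin k → ℂ) (Y : Tup n) : ℂ :=
  ∑ l : Ix n → Fin (k + 1), (∑ a, ξ a * c l a) * ∏ q : Ix n, ent Y q ^ (l q : ℕ)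

/-- The relations over `K` of degree at most `k`, with coefficients of size at most `T ^ k`, between the periods at `x`
and the constants `ξ` are invariant under `G`, and those between the periods and the powers of `2 π i` are invariant under
the group generated by `G` and the homotheties. -/
def Fam.Generic {X : Type} [Fintype X] {ι : Type} [Fintype ι] [DecidableEq ι] {n : ι → ℕ} (F : Fam X n) (k : ℕ)
    (K : Type) [Field K] [NumberField K] (io : K →+* ℂ) (ξ : Fin k → ℂ) (T : ℝ) (x : X → ℂ) : Prop :=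
  ∀ c : (Ix n → Fin (k + 1)) → Fin k → 𝓞 K, (∀ l a (φ : K →+* ℂ), ‖φ (c l a : K)‖ ≤ T ^ k) →
    (poly (fun l a => io (c l a : K)) ξ (F.P x) = 0 →
      ∀ g ∈ F.G, poly (fun l a => io (c l a : K)) ξ (g * F.P x) = 0) ∧
    (poly (fun l a => io (c l a : K)) (fun a => tpi ^ (a : ℕ)) (F.P x) = 0 →
      ∀ g ∈ F.G, ∀ z : ℂ, z ≠ 0 →
        poly (fun l a => io (c l a : K)) (fun a => (z ^ 2 * tpi) ^ (a : ℕ)) (tw F.w z (g * F.P x)) = 0)

/-- the points of `U` over `K`, of height at most `T`, of norm at most `k` and distance at least `1 / k` from the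
complement, which are not generic -/
def Fam.Exceptional {X : Type} [Fintype X] {ι : Type} [Fintype ι] [DecidableEq ι] {n : ι → ℕ} (F : Fam X n) (k : ℕ)
    (K : Type) [Field K] [NumberField K] (io : K →+* ℂ) (ξ : Fin k → ℂ) (T : ℝ) : Set (X → K) :=
  {e | (∀ j, Y120.HtLe K T (e j)) ∧ (fun j => io (e j)) ∈ InnerM F.U k ∧
    ¬ F.Generic k K io ξ T (fun j => io (e j))}

end Pool.Agent.Run7.h10.OR
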