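import Pool.Agent.Run7.h10.OR.Path
import Pool.Agent.Run7.h10.OR.Def
import Pool.Agent.Y890.SM.Alg

/-!
# Products of special orthogonal and symplectic groups are irreducible
-/

set_option autoImplicit false
set_option linter.unusedSectionVars false

open Matrix

namespace Pool.Agent.Run7.h10.OR

open Pool.Agent.Y890.SM (Ix sp_path)

/-- irreducible sets of matrices -/
def IrrM {m : ℕ} (S : Set (Matrix (Fin m) (Fin m) ℂ)) : Prop :=
  ∀ A B : MvPolynomial (Fin m × Fin m) ℂ,
    (∀ M ∈ S, MvPolynomial.eval (fun q => M q.1 q.2) A * MvPolynomial.eval (fun q => M q.1 q.2) B = 0) →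
    (∀ M ∈ S, MvPolynomial.eval (fun q => M q.1 q.2) A = 0) ∨ ∀ M ∈ S, MvPolynomial.eval (fun q => M q.1 q.2) B = 0

/-- irreducible sets of tuples -/
def IrrT {ι : Type} {n : ι → ℕ} (S : Set (Tup n)) : Prop :=
  ∀ A B : MvPolynomial (Ix n) ℂ, (∀ g ∈ S, MvPolynomial.eval (ent g) A * MvPolynomial.eval (ent g) B = 0) →
    (∀ g ∈ S, MvPolynomial.eval (ent g) A = 0) ∨ ∀ g ∈ S, MvPolynomial.eval (ent g) B = 0

section pi
variable {ι : Type} [DecidableEq ι] {n : ι → ℕ}

/-- the polynomial in the entries of one matrix, the other ones being fixed -/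
noncomputable def part (a : Tup n) (i : ι) (A : MvPolynomial (Ix n) ℂ) : MvPolynomial (Fin (n i) × Fin (n i)) ℂ :=
  MvPolynomial.aeval (fun q : Ix n => if h : q.1 = i then MvPolynomial.X (h ▸ q.2) else MvPolynomial.C (ent a q)) A

theorem part_eval (a : Tup n) (i : ι) (A : MvPolynomial (Ix n) ℂ) (M : Matrix (Fin (n i)) (Fin (n i)) ℂ) :
    MvPolynomial.eval (fun q => M q.1 q.2) (part a i A) =
      MvPolynomial.eval (ent (Function.update a i M)) A := by
  have h1 := MvPolynomial.eval₂Hom_bind₁ (RingHom.id ℂ) (fun q : Fin (n i) × Fin (n i) => M q.1 q.2)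
    (fun q : Ix n => if h : q.1 = i then MvPolynomial.X (h ▸ q.2) else MvPolynomial.C (ent a q)) A
  refine h1.trans ?_
  congr 2
  funext q
  obtain ⟨j, q⟩ := q
  by_cases h : j = i
  · subst h
    simp [ent]
  · simp [ent, h]

theorem irr_pi_aux (S : ∀ i, Set (Matrix (Fin (n i)) (Fin (n i)) ℂ)) (hS : ∀ i, IrrM (S i)) (F : Finset ι) :
    ∀ c : Tup n, IrrT {a : Tup n | (∀ i ∈ F, a i ∈ S i) ∧ ∀ i, i ∉ F → a i = c i} := by
  induction F using Finset.induction_on with
  | empty =>
    intro c A B h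
    have hu : ∀ a ∈ {a : Tup n | (∀ i ∈ (∅ : Finset ι), a i ∈ S i) ∧ ∀ i, i ∉ (∅ : Finset ι) → a i = c i}, a = c :=
      fun a ha => funext fun i => ha.2 i (Finset.notMem_empty i)
    rcases mul_eq_zero.1 (h c ⟨fun i hi => absurd hi (Finset.notMem_empty i), fun _ _ => rfl⟩) with h1 | h1
    · exact Or.inl fun a ha => by rw [hu a ha]; exact h1
    · exact Or.inr fun a ha => by rw [hu a ha]; exact h1
  | insert i0 F hi0 ih =>
    intro c A B h
    by_contra hcon
    push Not at hcon
    obtain ⟨⟨a, ha, h1⟩, ⟨b, hb, h2⟩⟩ := hcon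
    have hup : ∀ a ∈ {a : Tup n | (∀ i ∈ insert i0 F, a i ∈ S i) ∧ ∀ i, i ∉ insert i0 F → a i = c i},
        ∀ t ∈ S i0, Function.update a i0 t ∈
          {a : Tup n | (∀ i ∈ F, a i ∈ S i) ∧ ∀ i, i ∉ F → a i = Function.update c i0 t i} := by
      intro a ha t ht
      refine ⟨fun i hi => ?_, fun i hi => ?_⟩
      · have hne : i ≠ i0 := fun h => hi0 (h ▸ hi)
        rw [Function.update_of_ne hne]
        exact ha.1 i (Finset.mem_insert_of_mem hi)
      · by_cases hii : i = i0
        · subst hii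
          rw [Function.update_self, Function.update_self]
        · rw [Function.update_of_ne hii, Function.update_of_ne hii]
          exact ha.2 i (by simp [hii, hi])
    have hsub : ∀ t ∈ S i0, ∀ a ∈ {a : Tup n | (∀ i ∈ F, a i ∈ S i) ∧ ∀ i, i ∉ F → a i = Function.update c i0 t i},
        a ∈ {a : Tup n | (∀ i ∈ insert i0 F, a i ∈ S i) ∧ ∀ i, i ∉ insert i0 F → a i = c i} := by
      intro t ht a ha
      refine ⟨fun i hi => ?_, fun i hi => ?_⟩
      · rcases Finset.mem_insert.1 hi with rfl | hi'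
        · rw [ha.2 i hi0, Function.update_self]
          exact ht
        · exact ha.1 i hi'
      · rw [Finset.mem_insert, not_or] at hi
        rw [ha.2 i hi.2, Function.update_of_ne hi.1]
    have h3 := hS i0 (part a i0 A) (part b i0 B) (fun t ht => by
      rw [part_eval, part_eval]
      rcases ih (Function.update c i0 t) A B (fun g hg => h g (hsub t ht g hg)) with h4 | h4
      · rw [h4 _ (hup a ha t ht), zero_mul]
      · rw [h4 _ (hup b hb t ht), mul_zero])
    rcases h3 with h4 | h4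
    · apply h1
      have h5 := h4 (a i0) (ha.1 i0 (Finset.mem_insert_self _ _))
      rw [part_eval, Function.update_eq_self] at h5
      exact h5
    · apply h2
      have h5 := h4 (b i0) (hb.1 i0 (Finset.mem_insert_self _ _))
      rw [part_eval, Function.update_eq_self] at h5
      exact h5

theorem irr_pi [Fintype ι] (S : ∀ i, Set (Matrix (Fin (n i)) (Fin (n i)) ℂ)) (hS : ∀ i, IrrM (S i)) :
    IrrT {a : Tup n | ∀ i, a i ∈ S i} := by
  have h := irr_pi_aux S hS Finset.univ 0
  have h2 : {a : Tup n | (∀ i ∈ Finset.univ, a i ∈ S i) ∧ ∀ i, i ∉ Finset.univ → a i = (0 : Tup n) i} =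
      {a : Tup n | ∀ i, a i ∈ S i} := by
    ext a
    simp
  rw [h2] at h
  exact h

end pi

variable {m : ℕ}

theorem so_irrM {J : Matrix (Fin m) (Fin m) ℂ} (hJ : J.transpose = J) (hdet : J.det ≠ 0) :
    IrrM {M : Matrix (Fin m) (Fin m) ℂ | M * J * M.transpose = J ∧ M.det = 1} := by
  intro A B h
  by_contra hcon
  push Not at hcon
  obtain ⟨⟨M₁, h1, hA⟩, ⟨M₂, h2, hB⟩⟩ := hcon
  exact hB (so_irr hJ hdet A B (fun M hM hd => h M ⟨hM, hd⟩) h1.1 h1.2 h2.1 h2.2 hA)

theorem sp_irrM {J : Matrix (Fin m) (Fin m) ℂ} (hJ : J.transpose = -J) (hdet : J.det ≠ 0) :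
    IrrM {M : Matrix (Fin m) (Fin m) ℂ | M * J * M.transpose = J ∧ M.det = 1} := by
  intro A B h
  by_contra hcon
  push Not at hcon
  obtain ⟨⟨M₁, ⟨h1, d1⟩, hA⟩, ⟨M₂, ⟨h2, d2⟩, hB⟩⟩ := hcon
  have hu : IsUnit M₁.det := by rw [d1]; exact isUnit_one
  have i1 : M₁⁻¹ * M₁ = 1 := nonsing_inv_mul M₁ hu
  have i2 : M₁.transpose * (M₁⁻¹).transpose = 1 := by rw [← transpose_mul, i1, transpose_one]
  have h3 : M₁⁻¹ * J * (M₁⁻¹).transpose = J := by
    calc M₁⁻¹ * J * (M₁⁻¹).transpose = (M₁⁻¹ * M₁) * J * (M₁.transpose * (M₁⁻¹).transpose) := by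
          nth_rewrite 1 [← h1]
          simp only [Matrix.mul_assoc]
      _ = J := by rw [i1, i2, Matrix.one_mul, Matrix.mul_one]
  have hmul : ∀ P Q : Matrix (Fin m) (Fin m) ℂ, P * J * P.transpose = J → Q * J * Q.transpose = J →
      (P * Q) * J * (P * Q).transpose = J := by
    intro P Q hP hQ
    calc (P * Q) * J * (P * Q).transpose = P * (Q * J * Q.transpose) * P.transpose := by
          rw [transpose_mul]
          simp only [Matrix.mul_assoc]
      _ = J := by rw [hQ, hP]
  obtain ⟨G, hG0, hG1, hG⟩ := sp_path hJ hdet (M₂ * M₁⁻¹) (hmul _ _ h2 h3)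
  have hev : ∀ t, G.map (Polynomial.eval t) = ev t G := fun t => rfl
  simp only [hev] at hG0 hG1 hG
  -- the determinants along the path are `1`
  have hdetG : ∀ t, (ev t G).det = 1 := by
    have hd : ∀ t, (ev t G).det = (G.det).eval t := by
      intro t
      have h5 := RingHom.map_det (Polynomial.evalRingHom t) G
      exact h5.symm
    have hsq : G.det * G.det = 1 := by
      refine Polynomial.funext fun t => ?_
      rw [Polynomial.eval_mul, ← hd, Polynomial.eval_one]
      have h6 := congrArg Matrix.det (hG t)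
      rw [det_mul, det_mul, det_transpose] at h6
      have h7 : ((ev t G).det * (ev t G).det - 1) * J.det = 0 := by linear_combination h6
      exact sub_eq_zero.1 ((mul_eq_zero.1 h7).resolve_right hdet)
    have h8 : (G.det - 1) * (G.det + 1) = 0 := by linear_combination hsq
    intro t
    rcases mul_eq_zero.1 h8 with h9 | h9
    · rw [hd, sub_eq_zero.1 h9, Polynomial.eval_one]
    · exfalso
      have h10 := hd 0
      rw [eq_neg_of_add_eq_zero_left h9, hG0, det_one, Polynomial.eval_neg, Polynomial.eval_one] at h10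
      norm_num at h10
  set H : Matrix (Fin m) (Fin m) (Polynomial ℂ) := G * M₁.map Polynomial.C with hH
  have hHe : ∀ t, ev t H = (1 : Polynomial ℂ).eval t • (ev t G * M₁) := by
    intro t
    rw [hH, ev_mul, ev_C, Polynomial.eval_one, one_smul]
  obtain ⟨N, a, ha⟩ := clr H 1 A
  obtain ⟨N', b, hb⟩ := clr H 1 B
  simp only [Polynomial.eval_one, one_pow, one_mul] at ha hb
  have hHe' : ∀ t, ev t H = (1 : ℂ) • (ev t G * M₁) := by
    intro t
    have := hHe t
    rwa [Polynomial.eval_one] at this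
  have hprod : a * b = 0 := by
    refine Polynomial.funext fun t => ?_
    rw [Polynomial.eval_zero, Polynomial.eval_mul, ha t _ (hHe' t), hb t _ (hHe' t)]
    exact h _ ⟨hmul _ _ (hG t) h1, by rw [det_mul, hdetG, d1, one_mul]⟩
  rcases mul_eq_zero.1 hprod with h6 | h6
  · have h7 := ha 0 _ (hHe' 0)
    rw [h6, Polynomial.eval_zero, hG0, Matrix.one_mul] at h7
    exact hA h7.symm
  · have h7 := hb 1 _ (hHe' 1)
    rw [h6, Polynomial.eval_zero, hG1, Matrix.mul_assoc, i1, Matrix.mul_one] at h7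
    exact hB h7.symm

end Pool.Agent.Run7.h10.OR
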