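import Pool.Agent.Run7.h10.OR.Main
import Pool.Agent.Run7.h10.OR.Pi

/-!
# Families with orthogonal and symplectic monodromy
-/

set_option autoImplicit false
set_option linter.unusedSectionVars false

open Matrix NumberField

namespace Pool.Agent.Run7.h10.OR

open Pool.Agent.Y890.MV (evX)
open Pool.Agent.Y890.SP (Qbar)
open Pool.Agent.Y890.SM (Ix tpi)

section lin
variable {m : ℕ} {J K : Matrix (Fin m) (Fin m) ℂ}

theorem swap1 (h1 : J * K = 1) {g : Matrix (Fin m) (Fin m) ℂ} (hg : g * J * g.transpose = J) :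
    g.transpose * K * g = K := by
  have h2 : K * J = 1 := mul_eq_one_comm.1 h1
  have h3 : g * (J * g.transpose * K) = 1 := by
    rw [← h1]
    nth_rewrite 2 [← hg]
    simp only [Matrix.mul_assoc]
  have h4 : J * g.transpose * K * g = 1 := mul_eq_one_comm.1 h3
  calc g.transpose * K * g = K * J * (g.transpose * K * g) := by rw [h2, Matrix.one_mul]
    _ = K * (J * g.transpose * K * g) := by simp only [Matrix.mul_assoc]
    _ = K := by rw [h4, Matrix.mul_one]

theorem swap2 (h1 : J * K = 1) {g : Matrix (Fin m) (Fin m) ℂ} (hg : g.transpose * K * g = K) :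
    g * J * g.transpose = J := by
  have h2 : K * J = 1 := mul_eq_one_comm.1 h1
  have h3 := swap1 (J := K) (K := J) (g := g.transpose) h2 (by rw [transpose_transpose]; exact hg)
  rw [transpose_transpose] at h3
  exact h3

end lin

section conv
variable {X : Type} [Fintype X] {ι : Type} {n : ι → ℕ}

/-- the invariants of degree two -/
noncomputable def qf (J : ∀ i, Matrix (Fin (n i)) (Fin (n i)) ℚ) (i : ι) (a b : Fin (n i)) : MvPolynomial (Ix n) Qbar :=
  ∑ k, ∑ l, MvPolynomial.X (⟨i, (k, a)⟩ : Ix n) * MvPolynomial.C (algebraMap ℚ Qbar ((J i)⁻¹ k l)) *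
    MvPolynomial.X (⟨i, (l, b)⟩ : Ix n)

theorem qf_aeval (J : ∀ i, Matrix (Fin (n i)) (Fin (n i)) ℚ) (i : ι) (a b : Fin (n i)) (Y : Tup n) :
    MvPolynomial.aeval (ent Y) (qf J i a b) =
      ((Y i).transpose * ((J i)⁻¹).map (algebraMap ℚ ℂ) * Y i) a b := by
  rw [qf, Matrix.mul_apply]
  simp only [map_sum, map_mul, MvPolynomial.aeval_X, MvPolynomial.aeval_C, Matrix.mul_apply, Finset.sum_mul,
    Matrix.transpose_apply, Matrix.map_apply]
  rw [Finset.sum_comm]
  refine Finset.sum_congr rfl fun k _ => Finset.sum_congr rfl fun l _ => ?_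
  rfl

variable (C : Cls X n)

theorem Cls.Jx_det (i : ι) : ((C.J i).map (algebraMap ℚ ℂ)).det ≠ 0 := by
  have h4 : ((C.J i).map (algebraMap ℚ ℂ)).det = algebraMap ℚ ℂ (C.J i).det :=
    (RingHom.map_det (algebraMap ℚ ℂ) (C.J i)).symm
  rw [h4, Ne, map_eq_zero]
  exact C.J_det i

theorem Cls.JK (i : ι) : (C.J i).map (algebraMap ℚ ℂ) * ((C.J i)⁻¹).map (algebraMap ℚ ℂ) = 1 := by
  rw [← Matrix.map_mul, mul_nonsing_inv _ (isUnit_iff_ne_zero.2 (C.J_det i)), Matrix.map_one _ (map_zero _) (map_one _)]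

theorem Cls.Jx_symm (i : ι) : ((C.J i).map (algebraMap ℚ ℂ)).transpose =
    (-1 : ℂ) ^ C.w i • (C.J i).map (algebraMap ℚ ℂ) := by
  ext a b
  have h := congrFun (congrFun (C.J_symm i) a) b
  rw [Matrix.transpose_apply, Matrix.smul_apply, smul_eq_mul] at h
  rw [Matrix.transpose_apply, Matrix.map_apply, Matrix.smul_apply, Matrix.map_apply, h, smul_eq_mul]
  simp

theorem Cls.even (i : ι) : Even (n i * C.w i) := by
  rcases Nat.even_or_odd (C.w i) with h | h
  · exact h.mul_left _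
  · have h1 := C.Jx_symm i
    rw [h.neg_one_pow, neg_smul, one_smul] at h1
    exact (Pool.Agent.Y890.SM.even_of_alt h1 (C.Jx_det i)).mul_right _

theorem Cls.irr [Fintype ι] [DecidableEq ι] : IrrT C.G := by
  refine irr_pi (n := n) (fun i => {M | M * (C.J i).map (algebraMap ℚ ℂ) * M.transpose =
    (C.J i).map (algebraMap ℚ ℂ) ∧ M.det = 1}) fun i => ?_
  rcases Nat.even_or_odd (C.w i) with h | h
  · have h1 := C.Jx_symm i
    rw [h.neg_one_pow, one_smul] at h1
    exact so_irrM h1 (C.Jx_det i)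
  · have h1 := C.Jx_symm i
    rw [h.neg_one_pow, neg_smul, one_smul] at h1
    exact sp_irrM h1 (C.Jx_det i)

theorem tpi_ne : tpi ≠ 0 := BM.tpi_ne

theorem Cls.dets {x : X → Qbar} (hx : (fun j => (x j : ℂ)) ∈ C.U) (i : ι) :
    (C.P (fun j => (x j : ℂ)) i).det ^ 2 * ((C.Q i x).map (algebraMap Qbar ℂ)).det =
      (tpi ^ C.w i) ^ n i * ((C.J i).map (algebraMap ℚ ℂ)).det := by
  have h1 := congrArg Matrix.det (C.riemann x hx i)
  rw [det_mul, det_mul, det_transpose, det_smul, Fintype.card_fin] at h1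
  linear_combination h1

theorem Cls.Qx_det {x : X → Qbar} (hx : (fun j => (x j : ℂ)) ∈ C.U) (i : ι) :
    ((C.Q i x).map (algebraMap Qbar ℂ)).det ≠ 0 := by
  intro h0
  have h1 := C.dets hx i
  rw [h0, mul_zero] at h1
  exact mul_ne_zero (pow_ne_zero _ (pow_ne_zero _ tpi_ne)) (C.Jx_det i) h1.symm

theorem Cls.P_det {x : X → Qbar} (hx : (fun j => (x j : ℂ)) ∈ C.U) (i : ι) :
    (C.P (fun j => (x j : ℂ)) i).det ≠ 0 := by
  intro h0
  have h1 := C.dets hx i
  rw [h0, zero_pow two_ne_zero, zero_mul] at h1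
  exact mul_ne_zero (pow_ne_zero _ (pow_ne_zero _ tpi_ne)) (C.Jx_det i) h1.symm

theorem Cls.form {x : X → Qbar} (hx : (fun j => (x j : ℂ)) ∈ C.U) (i : ι) :
    (C.P (fun j => (x j : ℂ)) i).transpose * ((C.J i)⁻¹).map (algebraMap ℚ ℂ) * C.P (fun j => (x j : ℂ)) i =
      tpi ^ C.w i • ((C.Q i x)⁻¹).map (algebraMap Qbar ℂ) := by
  set P := C.P (fun j => (x j : ℂ)) i with hP
  set K := ((C.J i)⁻¹).map (algebraMap ℚ ℂ) with hK
  set Q := (C.Q i x).map (algebraMap Qbar ℂ) with hQ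
  set c := tpi ^ C.w i with hc
  have hc0 : c ≠ 0 := pow_ne_zero _ tpi_ne
  have h1 : P * (c⁻¹ • (Q * P.transpose * K)) = 1 := by
    rw [Matrix.mul_smul]
    have h2 : P * (Q * P.transpose * K) = P * Q * P.transpose * K := by simp only [Matrix.mul_assoc]
    rw [h2, C.riemann x hx i, Matrix.smul_mul, C.JK i, smul_smul, inv_mul_cancel₀ hc0, one_smul]
  have h3 : (c⁻¹ • (Q * P.transpose * K)) * P = 1 := mul_eq_one_comm.1 h1
  have hd : (C.Q i x).det ≠ 0 := by
    intro h0
    apply C.Qx_det hx i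
    have h4 : ((C.Q i x).map (algebraMap Qbar ℂ)).det = algebraMap Qbar ℂ (C.Q i x).det :=
      (RingHom.map_det (algebraMap Qbar ℂ) (C.Q i x)).symm
    rw [h4, h0, map_zero]
  have h5 : ((C.Q i x)⁻¹).map (algebraMap Qbar ℂ) * Q = 1 := by
    rw [hQ, ← Matrix.map_mul, nonsing_inv_mul _ (isUnit_iff_ne_zero.2 hd), Matrix.map_one _ (map_zero _) (map_one _)]
  have h6 : Q * (P.transpose * K * P) = c • 1 := by
    have h7 : Q * (P.transpose * K * P) = c • ((c⁻¹ • (Q * P.transpose * K)) * P) := by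
      rw [Matrix.smul_mul, smul_smul, mul_inv_cancel₀ hc0, one_smul]
      simp only [Matrix.mul_assoc]
    rw [h7, h3]
  calc P.transpose * K * P = ((C.Q i x)⁻¹).map (algebraMap Qbar ℂ) * Q * (P.transpose * K * P) := by
        rw [h5, Matrix.one_mul]
    _ = ((C.Q i x)⁻¹).map (algebraMap Qbar ℂ) * (Q * (P.transpose * K * P)) := by rw [Matrix.mul_assoc]
    _ = _ := by rw [h6, Matrix.mul_smul, Matrix.mul_one]

theorem Cls.det_alg {x : X → Qbar} (hx : (fun j => (x j : ℂ)) ∈ C.U) (i : ι) :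
    ∃ a : Qbar, (C.P (fun j => (x j : ℂ)) i).det = (a : ℂ) * tpi ^ (n i * C.w i / 2) := by
  have hclosed : IsAlgClosed Qbar := (algebraicClosure.isAlgClosure ℚ ℂ).isAlgClosed
  obtain ⟨a, ha⟩ := IsAlgClosed.exists_pow_nat_eq (algebraMap ℚ Qbar (C.J i).det * ((C.Q i x).det)⁻¹) (n := 2) two_pos
  have h1 := C.dets hx i
  have h2 : ((C.Q i x).map (algebraMap Qbar ℂ)).det = algebraMap Qbar ℂ (C.Q i x).det :=
    (RingHom.map_det (algebraMap Qbar ℂ) (C.Q i x)).symm
  have h3 : ((C.J i).map (algebraMap ℚ ℂ)).det = algebraMap ℚ ℂ (C.J i).det :=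
    (RingHom.map_det (algebraMap ℚ ℂ) (C.J i)).symm
  have h4 : (algebraMap Qbar ℂ a) ^ 2 * ((C.Q i x).map (algebraMap Qbar ℂ)).det =
      ((C.J i).map (algebraMap ℚ ℂ)).det := by
    rw [← map_pow, ha, h2, h3, map_mul, map_inv₀, mul_assoc, inv_mul_cancel₀ (by rw [← h2]; exact C.Qx_det hx i),
      mul_one]
    rfl
  set t := tpi ^ (n i * C.w i / 2) with ht
  have h5 : (tpi ^ C.w i) ^ n i = t ^ 2 := by
    rw [ht, ← pow_mul, ← pow_mul]
    congr 1
    have := Nat.div_mul_cancel (C.even i).two_dvd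
    rw [this, mul_comm]
  have h6 : ((C.P (fun j => (x j : ℂ)) i).det - algebraMap Qbar ℂ a * t) *
      ((C.P (fun j => (x j : ℂ)) i).det + algebraMap Qbar ℂ a * t) = 0 := by
    have h7 : (((C.P (fun j => (x j : ℂ)) i).det - algebraMap Qbar ℂ a * t) *
      ((C.P (fun j => (x j : ℂ)) i).det + algebraMap Qbar ℂ a * t)) *
        ((C.Q i x).map (algebraMap Qbar ℂ)).det = 0 := by
      rw [h5] at h1
      linear_combination h1 - t ^ 2 * h4
    exact (mul_eq_zero.1 h7).resolve_right (C.Qx_det hx i)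
  rcases mul_eq_zero.1 h6 with h7 | h7
  · exact ⟨a, sub_eq_zero.1 h7⟩
  · refine ⟨-a, ?_⟩
    rw [eq_neg_of_add_eq_zero_left h7]
    show _ = (algebraMap Qbar ℂ (-a)) * t
    rw [map_neg, neg_mul]

/-- **Families with classical monodromy are families in the sense of `Fam`.** -/
noncomputable def Cls.fam [Fintype ι] [DecidableEq ι] : Fam X n where
  U := C.U
  isOpen := C.isOpen
  conn := C.conn
  nonempty := C.nonempty
  P := C.P
  an := C.an
  unit := fun x hx i => C.P_det hx i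
  w := C.w
  Γ := C.Γ
  mon := C.mon
  G := C.G
  one := fun i => ⟨by rw [Pi.one_apply, Matrix.one_mul, Matrix.transpose_one, Matrix.mul_one], by simp⟩
  unitG := fun g hg i => by
    rw [(hg i).2]
    exact one_ne_zero
  irr := C.irr
  sub := fun R hR g hg => C.dense R hR g hg
  I := (Set.range fun q : Ix n => (qf C.J q.1 q.2.1 q.2.2, C.w q.1)) ∪
    Set.range fun i : ι => (detI Qbar i, n i * C.w i / 2)
  inv := by
    rintro _ (⟨q, rfl⟩ | ⟨i, rfl⟩) g hg Y
    · rw [qf_aeval, qf_aeval]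
      have h1 := swap1 (C.JK q.1) (hg q.1).1
      have h2 : ((g * Y) q.1).transpose * ((C.J q.1)⁻¹).map (algebraMap ℚ ℂ) * (g * Y) q.1 =
          (Y q.1).transpose * ((g q.1).transpose * ((C.J q.1)⁻¹).map (algebraMap ℚ ℂ) * g q.1) * Y q.1 := by
        rw [Pi.mul_apply, transpose_mul]
        simp only [Matrix.mul_assoc]
      rw [h2, h1]
    · rw [detI_aeval, detI_aeval, Pi.mul_apply, det_mul, (hg i).2, one_mul]
  hom := by
    rintro _ (⟨q, rfl⟩ | ⟨i, rfl⟩) z Y hz
    · rw [qf_aeval, qf_aeval]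
      have h0 : tw C.w z Y q.1 = z ^ C.w q.1 • Y q.1 := rfl
      rw [h0, transpose_smul, Matrix.smul_mul, Matrix.smul_mul, Matrix.mul_smul, smul_smul, Matrix.smul_apply, smul_eq_mul]
      congr 1
      ring
    · rw [detI_aeval, detI_aeval]
      show (z ^ C.w i • Y i).det = _
      rw [det_smul, Fintype.card_fin]
      congr 1
      rw [← pow_mul]
      congr 1
      have := Nat.mul_div_cancel' (C.even i).two_dvd
      simp only
      rw [this, mul_comm]
  alg := by
    rintro x hx _ (⟨q, rfl⟩ | ⟨i, rfl⟩)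
    · refine ⟨(C.Q q.1 x)⁻¹ q.2.1 q.2.2, ?_⟩
      rw [qf_aeval, C.form hx, Matrix.smul_apply, Matrix.map_apply, smul_eq_mul, mul_comm]
      rfl
    · obtain ⟨a, ha⟩ := C.det_alg hx i
      exact ⟨a, by rw [detI_aeval]; exact ha⟩
  sep := by
    intro A B hA hB h
    refine ⟨fun i => A i * (B i)⁻¹, fun i => ⟨?_, ?_⟩, ?_⟩
    · apply swap2 (C.JK i)
      have h1 : (A i).transpose * ((C.J i)⁻¹).map (algebraMap ℚ ℂ) * A i =
          (B i).transpose * ((C.J i)⁻¹).map (algebraMap ℚ ℂ) * B i := by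
        ext a b
        have h2 := h (qf C.J i a b, C.w i) (Or.inl ⟨⟨i, (a, b)⟩, rfl⟩)
        rw [qf_aeval, qf_aeval] at h2
        exact h2
      have hu := isUnit_iff_ne_zero.2 (hB i)
      have h3 : B i * (B i)⁻¹ = 1 := mul_nonsing_inv _ hu
      have h4 : ((B i)⁻¹).transpose * (B i).transpose = 1 := by rw [← transpose_mul, h3, transpose_one]
      calc (A i * (B i)⁻¹).transpose * ((C.J i)⁻¹).map (algebraMap ℚ ℂ) * (A i * (B i)⁻¹) =
            ((B i)⁻¹).transpose * ((A i).transpose * ((C.J i)⁻¹).map (algebraMap ℚ ℂ) * A i) * (B i)⁻¹ := by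
            rw [transpose_mul]
            simp only [Matrix.mul_assoc]
        _ = (((B i)⁻¹).transpose * (B i).transpose) * ((C.J i)⁻¹).map (algebraMap ℚ ℂ) * (B i * (B i)⁻¹) := by
            rw [h1]
            simp only [Matrix.mul_assoc]
        _ = _ := by rw [h3, h4, Matrix.one_mul, Matrix.mul_one]
    · have h2 := h (detI Qbar i, n i * C.w i / 2) (Or.inr ⟨i, rfl⟩)
      rw [detI_aeval, detI_aeval] at h2
      have h3 : B i * (B i)⁻¹ = 1 := mul_nonsing_inv _ (isUnit_iff_ne_zero.2 (hB i))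
      show (A i * (B i)⁻¹).det = 1
      rw [det_mul, h2, ← det_mul, h3, det_one]
    · funext i
      show A i = A i * (B i)⁻¹ * B i
      rw [Matrix.mul_assoc, nonsing_inv_mul _ (isUnit_iff_ne_zero.2 (hB i)), Matrix.mul_one]

end conv

end Pool.Agent.Run7.h10.OR
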