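import Mathlib

/-!
# Hypergeometric equations of Calabi-Yau type: definitions
-/

set_option autoImplicit false

namespace Pool.Agent.Run7.h10.OR

/-- a hypergeometric equation `θ ^ n f = z Q(θ) f` of Calabi-Yau type: the parity of the order and `m` rational numbers -/
structure Eqn where
  odd : Bool
  m : ℕ
  β : Fin m → ℚ

/-- the order: `2 m + 1` or `2 m` -/
def Eqn.order (e : Eqn) : ℕ := match e.odd with
  | true => 2 * e.m + 1
  | false => 2 * e.m

/-- the polynomial `Q`: `(x + 1/2) ∏ j, ((x + 1/2) ^ 2 - β j ^ 2)` for odd and `∏ j, (x ^ 2 - β j ^ 2)` for even order -/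
noncomputable def Eqn.poly (e : Eqn) : Polynomial ℚ := match e.odd with
  | true => (Polynomial.X + Polynomial.C (1 / 2)) *
      ∏ j, ((Polynomial.X + Polynomial.C (1 / 2)) ^ 2 - Polynomial.C (e.β j ^ 2))
  | false => ∏ j, (Polynomial.X ^ 2 - Polynomial.C (e.β j ^ 2))

/-- the exponents at infinity are not integers, `m ≥ 1` -/
def Eqn.Admissible (e : Eqn) : Prop := 1 ≤ e.m ∧ ∀ j (a : ℤ), e.β j ≠ match e.odd with
  | true => (a : ℚ) + 1 / 2
  | false => (a : ℚ)

/-- the power series `k + ε` in the variable `ε` -/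
noncomputable def shift (k : ℕ) : PowerSeries ℚ := PowerSeries.C (k : ℚ) + PowerSeries.X

/-- `a_k(ε) = ∏_{l < k} Q(l + ε) / (l + 1 + ε)^n`. The series `∑_k a_k(ε) z^(k + ε)` solves the equation
`(θ^n - z Q(θ)) f = ε^n z^ε`, hence its coefficients `f_j` at `ε^j` with `j < n` are solutions of the homogeneous
equation (the Frobenius basis at `z = 0`). -/
noncomputable def Eqn.frob (e : Eqn) (k : ℕ) : PowerSeries ℚ :=
  ∏ l ∈ Finset.range k, (Polynomial.aeval (shift l) e.poly * ((shift (l + 1))⁻¹) ^ e.order)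

/-- The matrix with the entries `(θ^i f_j)(z)`, where `f_j(z)` is the coefficient of `ε^j` in the series
`∑_k a_k(ε) z^(k + ε)`, `z^ε = ∑_l (log z)^l ε^l / l!`. -/
noncomputable def Eqn.Y (e : Eqn) (z : ℂ) : Matrix (Fin e.order) (Fin e.order) ℂ :=
  Matrix.of fun i j => ∑ l ∈ Finset.range ((j : ℕ) + 1), (Complex.log z ^ l / (l.factorial : ℂ)) *
    ∑' k : ℕ, ((PowerSeries.coeff ((j : ℕ) - l) (shift k ^ (i : ℕ) * e.frob k) : ℚ) : ℂ) * z ^ k

/-- the polynomial `(Q(x) + Q(y)) / (x + y + 1)`, a polynomial in `y` with coefficients in `ℚ[x]` -/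
noncomputable def lagrange (Q : Polynomial ℚ) : Polynomial (Polynomial ℚ) :=
  (Polynomial.C Q + Q.map Polynomial.C) /ₘ (Polynomial.X + Polynomial.C (Polynomial.X + 1))

/-- The form on the solutions. For odd order it is the antidiagonal matrix with the entries `(-1)^i`. For even order the
entry `(i, j)` is `(-1)^i q_{i+j+1-n}` for `i + j + 1 ≥ n` and `0` otherwise, where `q_l` are the coefficients of `Q`. -/
noncomputable def Eqn.J0 (e : Eqn) : Matrix (Fin e.order) (Fin e.order) ℚ :=
  Matrix.of fun i j => match e.odd with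
    | true => if (i : ℕ) + j + 1 = e.order then (-1) ^ (i : ℕ) else 0
    | false => if e.order ≤ (i : ℕ) + j + 1 then (-1) ^ (i : ℕ) * e.poly.coeff (i + j + 1 - e.order) else 0

/-- The form on the fibre at `z` is `J0 - z J1`. For odd order the entry `(i, j)` of `J1` is the coefficient of `x^i y^j`
in `(Q(x) + Q(y)) / (x + y + 1)`, for even order `J1 = 0`. -/
noncomputable def Eqn.J1 (e : Eqn) : Matrix (Fin e.order) (Fin e.order) ℚ :=
  Matrix.of fun i j => match e.odd with
    | true => ((lagrange e.poly).coeff j).coeff i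
    | false => 0

end Pool.Agent.Run7.h10.OR
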