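import Pool.Agent.Run7.h10.OR.Cls
import Pool.Agent.Run7.h10.OR.HypDef
import Pool.Agent.Run7.h893.HO.Odd

/-!
# Hypergeometric families of Calabi-Yau type are families with classical monodromy
-/

set_option autoImplicit false
set_option linter.unusedSectionVars false

open Matrix Filter Topology

namespace Pool.Agent.Run7.h10.OR

open Pool.Agent.Y890.MV (evX)
open Pool.Agent.Y890.SP (Qbar)
open Pool.Agent.Y890.SM (Ix tpi)
open Pool.Agent.Y119.HY (Lens isOpen_Lens preconn_Lens real_mem_Lens mem_Lens slit_Lens Yf Hc Am Jm QB cm Gal Rel Sol Vr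
  Yf_ode Ac_nil Jc_skew HD)
open Pool.Agent.Y119.HZ (QD_QB)
open Run7.h893.HO (QP J0m J1m Bz QO_QP QG)

theorem Eqn.J0_true {m : ℕ} (β : Fin m → ℚ) : Eqn.J0 ⟨true, m, β⟩ = J0m (2 * m + 1) := rfl

theorem Eqn.J0_false {m : ℕ} (β : Fin m → ℚ) : Eqn.J0 ⟨false, m, β⟩ = Jm (2 * m) (QB β) := rfl

theorem Eqn.J1_true {m : ℕ} (β : Fin m → ℚ) : Eqn.J1 ⟨true, m, β⟩ = J1m (2 * m + 1) (QP β) := rfl

theorem Eqn.J1_false {m : ℕ} (β : Fin m → ℚ) : Eqn.J1 ⟨false, m, β⟩ = 0 := rfl

theorem Eqn.Y_lib (e : Eqn) (z : ℂ) : e.Y z = Yf (cm (Am e.order)) (Hc e.order e.poly) z := by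
  ext i j
  unfold Eqn.Y Yf
  rw [Matrix.of_apply, Matrix.mul_apply]
  have hE : ∀ c : Fin e.order, Pool.Agent.Y119.HY.E (cm (Am e.order)) (Complex.log z) c j =
      ∑ l ∈ Finset.range e.order, if (j : ℕ) = c + l then Complex.log z ^ l / (l.factorial : ℂ) else 0 := by
    intro c
    unfold Pool.Agent.Y119.HY.E
    rw [Matrix.sum_apply]
    refine Finset.sum_congr rfl fun l _ => ?_
    rw [Matrix.smul_apply, ← Pool.Agent.Y119.HY.cm_pow, Pool.Agent.Y119.HY.cm_apply, Pool.Agent.Y119.HY.Am_pow, smul_eq_mul]
    split_ifs <;> simp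
  simp only [hE, Finset.mul_sum]
  rw [Finset.sum_comm]
  have hsub : Finset.range ((j : ℕ) + 1) ⊆ Finset.range e.order := by
    intro l hl
    rw [Finset.mem_range] at hl ⊢
    have := j.2
    omega
  refine Finset.sum_subset_zero_on_sdiff hsub (fun l hl => ?_) fun l hl => ?_
  · rw [Finset.mem_sdiff, Finset.mem_range, Finset.mem_range] at hl
    refine Finset.sum_eq_zero fun c _ => ?_
    rw [if_neg (by omega), mul_zero]
  · rw [Finset.mem_range] at hl
    have hj := j.2
    rw [Finset.sum_eq_single (⟨(j : ℕ) - l, by omega⟩ : Fin e.order)]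
    · rw [if_pos (by simp only; omega), mul_comm]
      rfl
    · intro c _ hc
      rw [if_neg, mul_zero]
      intro h
      apply hc
      apply Fin.ext
      simp only
      omega
    · intro h
      exact absurd (Finset.mem_univ _) h

/-- what we need about these equations -/
structure Eqn.Good (e : Eqn) : Prop where
  sol : ∃ N : Matrix (Fin e.order) (Fin e.order) ℂ, Sol (cm (Am e.order)) N (Hc e.order e.poly)
  form : ∀ z ∈ Lens, (e.Y z).transpose * Bz (cm e.J0) (cm e.J1) z * e.Y z = cm e.J0
  inv : ∀ g : Matrix (Fin e.order) (Fin e.order) ℂ, g.transpose * cm e.J0 * g = cm e.J0 → g ∈ Gal e.Y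
  symm : (cm e.J0).transpose = (if e.odd then (1 : ℂ) else -1) • cm e.J0

theorem Eqn.good (e : Eqn) (he : e.Admissible) : e.Good := by
  have hYl : e.Y = Yf (cm (Am e.order)) (Hc e.order e.poly) := funext fun z => e.Y_lib z
  obtain ⟨_ | _, m, β⟩ := e
  · obtain ⟨hm, hβ⟩ := he
    have hβ' : ∀ j, ∀ l : ℕ, (l : ℚ) + β j ≠ 0 ∧ (l : ℚ) + -β j ≠ 0 := by
      intro j l
      constructor
      · intro h
        apply hβ j (-(l : ℤ))
        push_cast
        linear_combination h
      · intro h
        apply hβ j (l : ℤ)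
        push_cast
        linear_combination -h
    have hQ := QD_QB hm hβ'
    refine ⟨⟨_, Pool.Agent.Y119.HY.sol_c hQ⟩, ?_, ?_, ?_⟩
    rotate_left
    · rw [hYl]
      exact Pool.Agent.Y119.HY.hyp_invar hQ
    rotate_left
    · intro z hz
      rw [hYl]
      have h1 : Bz (cm (Jm (2 * m) (QB β))) (cm 0) z = cm (Jm (2 * m) (QB β)) := by
        unfold Bz
        have : (cm (0 : Matrix (Fin (2 * m)) (Fin (2 * m)) ℚ)) = 0 := Pool.Agent.Y119.HY.cm_zero
        rw [this, smul_zero, sub_zero]
      show (Yf (cm (Am (2 * m))) (Hc (2 * m) (QB β)) z).transpose * Bz (cm (Jm (2 * m) (QB β))) (cm 0) z *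
        Yf (cm (Am (2 * m))) (Hc (2 * m) (QB β)) z = cm (Jm (2 * m) (QB β))
      rw [h1]
      refine Pool.Agent.Y119.HY.self_pair Ac_nil Pool.Agent.Y119.HY.Jc_rel ?_ (Pool.Agent.Y119.HY.sol_c hQ) hz
      rw [← Pool.Agent.Y119.HY.cm_transpose, ← Pool.Agent.Y119.HY.cm_mul, ← Pool.Agent.Y119.HY.cm_mul,
        ← Pool.Agent.Y119.HY.cm_add, Pool.Agent.Y119.HZ.Bm_rel hQ, Pool.Agent.Y119.HY.cm_zero]
    · show (cm (Jm (2 * m) (QB β))).transpose = (-1 : ℂ) • cm (Jm (2 * m) (QB β))
      rw [Jc_skew hQ, neg_smul, one_smul]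
  · obtain ⟨hm, hβ⟩ := he
    have hQ := QO_QP hm hβ
    refine ⟨⟨_, Run7.h893.HO.sol_c_g hQ.toQG⟩, ?_, ?_, ?_⟩
    rotate_left
    · rw [hYl]
      exact Run7.h893.HO.hyp_invar_o hQ
    rotate_left
    · intro z hz
      rw [hYl]
      exact Run7.h893.HO.self_pair' (Run7.h893.HO.comp_q hQ) (Run7.h893.HO.sol_c_g hQ.toQG) hz
    · show (cm (J0m (2 * m + 1))).transpose = (1 : ℂ) • cm (J0m (2 * m + 1))
      rw [one_smul, ← Pool.Agent.Y119.HY.cm_transpose, Run7.h893.HO.J0m_symm hQ.odd]

section ana
variable {e : Eqn} (h : e.Good)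
include h

theorem Y_diff (a b : Fin e.order) : DifferentiableOn ℂ (fun z => e.Y z a b) Lens := by
  obtain ⟨N, hN⟩ := h.sol
  intro z hz
  have h1 := (Yf_ode hN Ac_nil (mem_Lens.1 hz).1 (slit_Lens hz) a b).differentiableAt
  have h2 : (fun z => e.Y z a b) = fun z => Yf (cm (Am e.order)) (Hc e.order e.poly) z a b :=
    funext fun z => by rw [e.Y_lib]
  rw [h2]
  exact h1.differentiableWithinAt

theorem ev_diff (R : MvPolynomial (Vr e.order) ℂ) (g : Matrix (Fin e.order) (Fin e.order) ℂ) :
    DifferentiableOn ℂ (fun z => Pool.Agent.Y119.HY.ev R z (Complex.log z) (e.Y z * g)) Lens := by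
  unfold Pool.Agent.Y119.HY.ev
  induction R using MvPolynomial.induction_on with
  | C c =>
    simp only [MvPolynomial.eval_C]
    exact differentiableOn_const _
  | add p q hp hq =>
    simp only [map_add]
    exact hp.add hq
  | mul_X p i hp =>
    simp only [map_mul, MvPolynomial.eval_X]
    refine hp.mul ?_
    rcases i with _ | _ | ⟨a, b⟩
    · exact differentiableOn_id
    · intro z hz
      exact (Complex.differentiableAt_log (slit_Lens hz)).differentiableWithinAt
    · show DifferentiableOn ℂ (fun z => (e.Y z * g) a b) Lens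
      simp only [Matrix.mul_apply]
      refine DifferentiableOn.fun_sum fun k _ => ?_
      exact (Y_diff h a k).mul (differentiableOn_const _)

/-- relations which hold on `(0, 1)` hold for complex `z` -/
theorem ev_zero (R : MvPolynomial (Vr e.order) ℂ) (g : Matrix (Fin e.order) (Fin e.order) ℂ)
    (h0 : ∀ x : ℝ, 0 < x → x < 1 → Pool.Agent.Y119.HY.ev R x (Complex.log x) (e.Y x * g) = 0) {z : ℂ} (hz : z ∈ Lens) :
    Pool.Agent.Y119.HY.ev R z (Complex.log z) (e.Y z * g) = 0 := by
  have h1 := (ev_diff h R g).analyticOnNhd isOpen_Lens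
  have hhalf : ((1 / 2 : ℝ) : ℂ) ∈ Lens := real_mem_Lens (by norm_num) (by norm_num)
  refine h1.eqOn_zero_of_preconnected_of_frequently_eq_zero preconn_Lens hhalf ?_ hz
  have h2 : Tendsto (fun t : ℝ => (t : ℂ)) (𝓝[≠] (1 / 2 : ℝ)) (𝓝[≠] ((1 / 2 : ℝ) : ℂ)) := by
    refine tendsto_nhdsWithin_iff.2 ⟨?_, ?_⟩
    · exact (Complex.continuous_ofReal.tendsto _).mono_left nhdsWithin_le_nhds
    · filter_upwards [self_mem_nhdsWithin] with t ht
      intro h3
      exact ht (Complex.ofReal_injective h3)
  refine h2.frequently (Eventually.frequently ?_)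
  have h3 : ∀ᶠ t : ℝ in 𝓝[≠] (1 / 2 : ℝ), t ∈ Set.Ioo (0 : ℝ) 1 :=
    nhdsWithin_le_nhds (Ioo_mem_nhds (by norm_num) (by norm_num))
  filter_upwards [h3] with t ht
  exact h0 t ht.1 ht.2

end ana

section tuple
variable {k : ℕ} (e : Fin k → Eqn) (Ω : ∀ i, Matrix (Fin (e i).order) (Fin (e i).order) ℂ)

/-- the periods -/
noncomputable def HP (x : Fin k → ℂ) : Tup fun i => (e i).order := fun i => ((e i).Y (x i) * Ω i).transpose

/-- the set -/
def HU (k : ℕ) : Set (Fin k → ℂ) := {x | ∀ i, x i ∈ Lens}

/-- substitution of the `i0`-th matrix and variable -/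
noncomputable def subst (i0 : Fin k) (x : Fin k → ℂ) (M : Tup fun i => (e i).order)
    (p : MvPolynomial (Ix fun i => (e i).order) (MvPolynomial (Fin k) ℂ)) : MvPolynomial (Vr (e i0).order) ℂ :=
  MvPolynomial.eval₂Hom
    (MvPolynomial.eval₂Hom MvPolynomial.C fun j => if j = i0 then MvPolynomial.X none else MvPolynomial.C (x j))
    (fun q => if h : q.1 = i0 then
        ∑ l, MvPolynomial.X (some (some ((h ▸ q.2.2 : Fin (e i0).order), l))) *
          MvPolynomial.C (Ω i0 l (h ▸ q.2.1 : Fin (e i0).order))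
      else MvPolynomial.C (ent M q)) p

theorem subst_ev (i0 : Fin k) (x : Fin k → ℂ) (M : Tup fun i => (e i).order)
    (p : MvPolynomial (Ix fun i => (e i).order) (MvPolynomial (Fin k) ℂ)) (z L : ℂ)
    (Z : Matrix (Fin (e i0).order) (Fin (e i0).order) ℂ) :
    Pool.Agent.Y119.HY.ev (subst e Ω i0 x M p) z L Z =
      evX (Function.update x i0 z) (ent (Function.update M i0 (Z * Ω i0).transpose)) p := by
  have h : (MvPolynomial.eval (Pool.Agent.Y119.HY.pt z L Z)).comp (MvPolynomial.eval₂Hom
      (MvPolynomial.eval₂Hom MvPolynomial.C fun j => if j = i0 then MvPolynomial.X none else MvPolynomial.C (x j))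
      (fun q : Ix fun i => (e i).order => if h : q.1 = i0 then
          ∑ l, MvPolynomial.X (some (some ((h ▸ q.2.2 : Fin (e i0).order), l))) *
            MvPolynomial.C (Ω i0 l (h ▸ q.2.1 : Fin (e i0).order))
        else MvPolynomial.C (ent M q))) =
      MvPolynomial.eval₂Hom (MvPolynomial.eval (Function.update x i0 z))
        (ent (Function.update M i0 (Z * Ω i0).transpose)) := by
    apply MvPolynomial.ringHom_ext
    · intro a
      simp only [RingHom.comp_apply, MvPolynomial.eval₂Hom_C]
      induction a using MvPolynomial.induction_on with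
      | C c => simp
      | add p q hp hq => simp only [map_add, hp, hq]
      | mul_X p j hp =>
        simp only [map_mul, hp]
        congr 1
        rw [MvPolynomial.eval₂Hom_X', MvPolynomial.eval_X]
        by_cases hj : j = i0
        · subst hj
          rw [if_pos rfl, Function.update_self, MvPolynomial.eval_X]
          rfl
        · rw [if_neg hj, Function.update_of_ne hj, MvPolynomial.eval_C]
    · rintro ⟨i, a, b⟩
      simp only [RingHom.comp_apply, MvPolynomial.eval₂Hom_X']
      by_cases hi : i = i0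
      · subst hi
        simp [ent, Matrix.mul_apply, Pool.Agent.Y119.HY.pt]
        try exact Finset.sum_congr rfl fun _ _ => mul_comm _ _
      · simp [ent, hi]
  exact RingHom.congr_fun h p

theorem hyp_mon (he : ∀ i, (e i).Good) (g : Tup fun i => (e i).order)
    (hg : ∀ i, (g i).transpose * cm (e i).J0 * g i = cm (e i).J0)
    (p : MvPolynomial (Ix fun i => (e i).order) (MvPolynomial (Fin k) ℂ))
    (hp : ∀ x ∈ HU k, evX x (ent (HP e Ω x)) p = 0) :
    ∀ x ∈ HU k, evX x (ent fun i => ((e i).Y (x i) * g i * Ω i).transpose) p = 0 := by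
  classical
  have key : ∀ F : Finset (Fin k), ∀ x ∈ HU k, evX x (ent fun i =>
      ((e i).Y (x i) * (if i ∈ F then g i else 1) * Ω i).transpose) p = 0 := by
    intro F
    induction F using Finset.induction_on with
    | empty =>
      intro x hx
      have h1 := hp x hx
      have h2 : (fun i => ((e i).Y (x i) * (if i ∈ (∅ : Finset (Fin k)) then g i else 1) * Ω i).transpose) =
          HP e Ω x := by
        funext i
        rw [if_neg (Finset.notMem_empty i), Matrix.mul_one]
        rfl
      rw [h2]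
      exact h1
    | insert i0 F hi0 ih =>
      intro x hx
      set M : Tup fun i => (e i).order := fun i =>
        ((e i).Y (x i) * (if i ∈ F then g i else 1) * Ω i).transpose with hM
      set R := subst e Ω i0 x M p with hR
      have hup : ∀ z ∈ Lens, Function.update x i0 z ∈ HU k := by
        intro z hz i
        by_cases hi : i = i0
        · subst hi
          rw [Function.update_self]
          exact hz
        · rw [Function.update_of_ne hi]
          exact hx i
      have h1 : R ∈ Rel (e i0).Y := by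
        intro t ht ht1
        rw [hR, subst_ev]
        have h2 := ih _ (hup t (real_mem_Lens ht ht1))
        have h3 : Function.update M i0 ((e i0).Y (t : ℂ) * Ω i0).transpose = fun i =>
            ((e i).Y (Function.update x i0 (t : ℂ) i) * (if i ∈ F then g i else 1) * Ω i).transpose := by
          funext i
          by_cases hi : i = i0
          · subst hi
            rw [Function.update_self, Function.update_self, if_neg hi0, Matrix.mul_one]
          · rw [Function.update_of_ne hi, Function.update_of_ne hi, hM]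
        rw [h3]
        exact h2
      have h4 := (he i0).inv (g i0) (hg i0) R h1
      have h5 := ev_zero (he i0) R (g i0) h4 (hx i0)
      rw [hR, subst_ev, Function.update_eq_self] at h5
      have h6 : Function.update M i0 ((e i0).Y (x i0) * g i0 * Ω i0).transpose = fun i =>
          ((e i).Y (x i) * (if i ∈ insert i0 F then g i else 1) * Ω i).transpose := by
        funext i
        by_cases hi : i = i0
        · subst hi
          rw [Function.update_self, if_pos (Finset.mem_insert_self _ _)]
        · rw [Function.update_of_ne hi, hM]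
          have h7 : (i ∈ insert i0 F) = (i ∈ F) := by
            rw [Finset.mem_insert]
            simp [hi]
          simp only [h7]
      rw [h6] at h5
      exact h5
  intro x hx
  have h1 := key Finset.univ x hx
  simpa using h1

end tuple

end Pool.Agent.Run7.h10.OR
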