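import Pool.Agent.Run7.h10.OR.Hyp

/-!
# Tuples of hypergeometric motives as families with classical monodromy
-/

set_option autoImplicit false
set_option linter.unusedSectionVars false

open Matrix Filter Topology

namespace Pool.Agent.Run7.h10.OR

open Pool.Agent.Y890.MV (evX)
open Pool.Agent.Y890.SP (Qbar)
open Pool.Agent.Y890.SM (Ix tpi)
open Pool.Agent.Y119.HY (Lens isOpen_Lens preconn_Lens real_mem_Lens mem_Lens slit_Lens cm Gal)
open Run7.h893.HO (Bz)

/-- **Tuples of hypergeometric motives.** -/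
theorem hyp_cls {k : ℕ} (e : Fin k → Eqn) (he : ∀ i, (e i).Admissible)
    (Ω : ∀ i, Matrix (Fin (e i).order) (Fin (e i).order) ℂ) (w : Fin k → ℕ) (hw : ∀ i, Even (w i) ↔ (e i).odd = true)
    (J : ∀ i, Matrix (Fin (e i).order) (Fin (e i).order) ℚ) (hJ : ∀ i, (J i).det ≠ 0)
    (hΩ : ∀ i, (Ω i).transpose * (e i).J0.map (algebraMap ℚ ℂ) * Ω i = tpi ^ w i • (J i).map (algebraMap ℚ ℂ)) :
    ∃ C : Cls (Fin k) fun i => (e i).order, C.U = {x | ∀ i, x i ∈ Lens} ∧
      (∀ x, C.P x = fun i => ((e i).Y (x i) * Ω i).transpose) ∧ C.w = w ∧ C.J = J ∧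
      ∀ i x, C.Q i x = (e i).J0.map (algebraMap ℚ Qbar) - x i • (e i).J1.map (algebraMap ℚ Qbar) := by
  classical
  have hG := fun i => (e i).good (he i)
  have hcm : ∀ i (M : Matrix (Fin (e i).order) (Fin (e i).order) ℚ), cm M = M.map (algebraMap ℚ ℂ) := fun i M => rfl
  have hJx : ∀ i, ((J i).map (algebraMap ℚ ℂ)).det ≠ 0 := by
    intro i
    have h4 : ((J i).map (algebraMap ℚ ℂ)).det = algebraMap ℚ ℂ (J i).det := (RingHom.map_det (algebraMap ℚ ℂ) (J i)).symm
    rw [h4, Ne, map_eq_zero]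
    exact hJ i
  have hΩd : ∀ i, (Ω i).det ≠ 0 := by
    intro i h0
    have h1 := congrArg Matrix.det (hΩ i)
    rw [det_mul, det_mul, h0, mul_zero, det_smul] at h1
    exact mul_ne_zero (pow_ne_zero _ (pow_ne_zero _ tpi_ne)) (hJx i) h1.symm
  have hΩi : ∀ i, Ω i * (Ω i)⁻¹ = 1 := fun i => mul_nonsing_inv _ (isUnit_iff_ne_zero.2 (hΩd i))
  have hiΩ : ∀ i, (Ω i)⁻¹ * Ω i = 1 := fun i => nonsing_inv_mul _ (isUnit_iff_ne_zero.2 (hΩd i))
  have hsym : ∀ i, (J i).transpose = (-1 : ℚ) ^ w i • J i := by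
    intro i
    have h1 : ((J i).map (algebraMap ℚ ℂ)).transpose = (-1 : ℂ) ^ w i • (J i).map (algebraMap ℚ ℂ) := by
      have h2 := congrArg Matrix.transpose (hΩ i)
      rw [transpose_mul, transpose_mul, transpose_transpose, transpose_smul, ← hcm, (hG i).symm, Matrix.smul_mul,
        Matrix.mul_smul, ← Matrix.mul_assoc, hcm, hΩ i] at h2
      have h3 : (if (e i).odd = true then (1 : ℂ) else -1) = (-1 : ℂ) ^ w i := by
        by_cases h : (e i).odd = true
        · rw [if_pos h, ((hw i).2 h).neg_one_pow]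
        · rw [if_neg h, (Nat.not_even_iff_odd.1 fun h' => h ((hw i).1 h')).neg_one_pow]
      rw [h3, smul_comm] at h2
      exact (smul_right_injective _ (pow_ne_zero (w i) tpi_ne) h2).symm
    ext a b
    have h2 := congrFun (congrFun h1 a) b
    rw [Matrix.transpose_apply, Matrix.map_apply, Matrix.smul_apply, Matrix.map_apply, smul_eq_mul] at h2
    rw [Matrix.transpose_apply, Matrix.smul_apply, smul_eq_mul]
    apply (algebraMap ℚ ℂ).injective
    rw [h2, map_mul, map_pow, map_neg, map_one]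
  have hYd : ∀ i (a b : Fin (e i).order), AnalyticOnNhd ℂ (fun z => (e i).Y z a b) Lens := fun i a b =>
    (Y_diff (hG i) a b).analyticOnNhd isOpen_Lens
  have hUo : IsOpen {x : Fin k → ℂ | ∀ i, x i ∈ Lens} := by
    have h1 : {x : Fin k → ℂ | ∀ i, x i ∈ Lens} = Set.pi Set.univ fun _ => Lens := by
      ext x
      simp
    rw [h1]
    exact isOpen_set_pi Set.finite_univ fun _ _ => isOpen_Lens
  have hUc : IsPreconnected {x : Fin k → ℂ | ∀ i, x i ∈ Lens} := by
    have h1 : {x : Fin k → ℂ | ∀ i, x i ∈ Lens} = Set.pi Set.univ fun _ => Lens := by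
      ext x
      simp
    rw [h1]
    exact isPreconnected_univ_pi fun _ => preconn_Lens
  refine ⟨{
    U := {x | ∀ i, x i ∈ Lens}
    isOpen := hUo
    conn := hUc
    nonempty := ⟨fun _ => ((1 / 2 : ℝ) : ℂ), fun _ => real_mem_Lens (by norm_num) (by norm_num)⟩
    P := fun x i => ((e i).Y (x i) * Ω i).transpose
    an := fun i l j => by
      show AnalyticOnNhd ℂ (fun x : Fin k → ℂ => ((e i).Y (x i) * Ω i) j l) {x | ∀ i, x i ∈ Lens}
      simp only [Matrix.mul_apply]
      apply Finset.analyticOnNhd_fun_sum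
      intro c _
      refine AnalyticOnNhd.mul ?_ analyticOnNhd_const
      intro x hx
      exact AnalyticAt.fun_comp (f := fun x : Fin k → ℂ => x i) (hYd i j c (x i) (hx i))
        ((ContinuousLinearMap.proj (R := ℂ) (φ := fun _ : Fin k => ℂ) i).analyticAt x)
    w := w
    J := J
    J_det := hJ
    J_symm := hsym
    Q := fun i x => (e i).J0.map (algebraMap ℚ Qbar) - x i • (e i).J1.map (algebraMap ℚ Qbar)
    riemann := fun x hx i => by
      have h1 : ((e i).J0.map (algebraMap ℚ Qbar) - x i • (e i).J1.map (algebraMap ℚ Qbar)).map (algebraMap Qbar ℂ) =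
          Bz (cm (e i).J0) (cm (e i).J1) (x i : ℂ) := by
        ext a b
        simp only [Matrix.map_apply, Matrix.sub_apply, Matrix.smul_apply, Bz, smul_eq_mul, map_sub, map_mul, hcm]
        rfl
      rw [h1, transpose_transpose, transpose_mul]
      have h2 := (hG i).form (x i : ℂ) (hx i)
      calc (Ω i).transpose * ((e i).Y (x i : ℂ)).transpose * Bz (cm (e i).J0) (cm (e i).J1) (x i : ℂ) *
            ((e i).Y (x i : ℂ) * Ω i) =
            (Ω i).transpose * (((e i).Y (x i : ℂ)).transpose * Bz (cm (e i).J0) (cm (e i).J1) (x i : ℂ) *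
              (e i).Y (x i : ℂ)) * Ω i := by simp only [Matrix.mul_assoc]
        _ = _ := by rw [h2, hcm, hΩ i]
    Γ := {γ | ∀ i, γ i * (J i).map (algebraMap ℚ ℂ) * (γ i).transpose = (J i).map (algebraMap ℚ ℂ)}
    mon := fun γ hγ p hp x hx => by
      have h1 := hyp_mon e Ω hG (fun i => Ω i * (γ i).transpose * (Ω i)⁻¹) (fun i => by
        have h3 : ((Ω i)⁻¹).transpose * (Ω i).transpose = 1 := by rw [← transpose_mul, hΩi, transpose_one]
        have h2 : (Ω i * (γ i).transpose * (Ω i)⁻¹).transpose * cm (e i).J0 * (Ω i * (γ i).transpose * (Ω i)⁻¹) =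
            ((Ω i)⁻¹).transpose * (γ i * ((Ω i).transpose * (e i).J0.map (algebraMap ℚ ℂ) * Ω i) *
              (γ i).transpose) * (Ω i)⁻¹ := by
          rw [transpose_mul, transpose_mul, transpose_transpose, hcm]
          simp only [Matrix.mul_assoc]
        rw [h2, hΩ i, Matrix.mul_smul, Matrix.smul_mul, hγ i, ← hΩ i, hcm]
        calc ((Ω i)⁻¹).transpose * ((Ω i).transpose * (e i).J0.map (algebraMap ℚ ℂ) * Ω i) * (Ω i)⁻¹ =
              (((Ω i)⁻¹).transpose * (Ω i).transpose) * (e i).J0.map (algebraMap ℚ ℂ) * (Ω i * (Ω i)⁻¹) := by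
              simp only [Matrix.mul_assoc]
          _ = _ := by rw [h3, hΩi, Matrix.one_mul, Matrix.mul_one]) p hp x hx
      have h2 : (fun i => ((e i).Y (x i) * (Ω i * (γ i).transpose * (Ω i)⁻¹) * Ω i).transpose) =
          γ * fun i => ((e i).Y (x i) * Ω i).transpose := by
        funext i
        show _ = γ i * ((e i).Y (x i) * Ω i).transpose
        have h3 : (e i).Y (x i) * (Ω i * (γ i).transpose * (Ω i)⁻¹) * Ω i = (e i).Y (x i) * Ω i * (γ i).transpose := by
          calc (e i).Y (x i) * (Ω i * (γ i).transpose * (Ω i)⁻¹) * Ω i =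
                (e i).Y (x i) * Ω i * (γ i).transpose * ((Ω i)⁻¹ * Ω i) := by simp only [Matrix.mul_assoc]
            _ = _ := by rw [hiΩ, Matrix.mul_one]
        rw [h3, transpose_mul, transpose_transpose]
      rw [h2] at h1
      exact h1
    dense := fun R hR M hM => hR M fun i => (hM i).1 }, rfl, fun _ => rfl, rfl, rfl, fun _ _ => rfl⟩

end Pool.Agent.Run7.h10.OR
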