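import Pool.Agent.Run7.h10.OR.Def
import Pool.Agent.Run7.h10.BM.Full

/-!
# Families of motives with arbitrary monodromy
-/

set_option autoImplicit false
set_option linter.unusedSectionVars false

open Matrix NumberField Filter

namespace Pool.Agent.Run7.h10.OR

open Pool.Agent.Y890.MV
open Pool.Agent.Y890.SP (Qbar ioQ ioQ_coe)
open Pool.Agent.Y890.SM (Ix tpi)
open Pool.Agent.Y124 (Cov)
open Pool.Agent.N207 (GS.Fib GS.Irr GS.ExcI GS.comp GS.Few GS.few_of)
open Pool.Agent.Run7.h10.BM (pt aeval_coe full_gen)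

variable {X ι : Type} {n : ι → ℕ}

theorem ent_mul (g Y : Tup n) (q : Ix n) : ent (g * Y) q = ∑ k, g q.1 q.2.1 k * Y q.1 k q.2.2 := by
  show (g q.1 * Y q.1) q.2.1 q.2.2 = _
  rw [Matrix.mul_apply]

/-- substitution of a product -/
noncomputable def sb (A : MvPolynomial (Ix n) ℂ) (B : Tup n) : MvPolynomial (Ix n) ℂ :=
  MvPolynomial.bind₁ (fun q : Ix n => ∑ k, MvPolynomial.X (⟨q.1, (q.2.1, k)⟩ : Ix n) * MvPolynomial.C (B q.1 k q.2.2)) A

theorem sb_eval (A : MvPolynomial (Ix n) ℂ) (B M : Tup n) :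
    MvPolynomial.eval (ent M) (sb A B) = MvPolynomial.eval (ent (M * B)) A := by
  have h1 := MvPolynomial.eval₂Hom_bind₁ (RingHom.id ℂ) (ent M)
    (fun q : Ix n => ∑ k, MvPolynomial.X (⟨q.1, (q.2.1, k)⟩ : Ix n) * MvPolynomial.C (B q.1 k q.2.2)) A
  refine h1.trans ?_
  congr 2
  funext q
  rw [ent_mul]
  simp [ent]

/-- the value of a relation as an evaluation -/
theorem evX_map {σ : Type} (x : X → ℂ) (a : σ → ℂ) (p : MvPolynomial σ (MvPolynomial X ℂ)) :
    evX x a p = MvPolynomial.eval a (MvPolynomial.map (MvPolynomial.eval x) p) := by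
  rw [MvPolynomial.eval_map]
  rfl

/-- the functions -/
def Fam.f [Fintype X] (F : Fam X n) (q : Ix n) (x : X → ℂ) : ℂ := ent (F.P x) q

/-- the orbit lies in the fibre -/
theorem Fam.orbit [Fintype X] (F : Fam X n) {x : X → ℂ} (hx : x ∈ F.U) {g : Tup n} (hg : g ∈ F.G) :
    ent (g * F.P x) ∈ GS.Fib F.U F.f x := by
  intro p hp
  rw [evX_map, ← sb_eval]
  refine F.sub _ (fun γ hγ => ?_) g hg
  rw [sb_eval, ← evX_map]
  exact F.mon γ hγ p hp x hx

/-- the orbit is irreducible -/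
theorem Fam.irrS [Fintype X] (F : Fam X n) (x : X → ℂ) :
    GS.Irr ((fun g => ent (g * F.P x)) '' F.G) := by
  intro A B h
  rcases F.irr (sb A (F.P x)) (sb B (F.P x)) (fun g hg => by
    rw [sb_eval, sb_eval]
    exact h _ ⟨g, hg, rfl⟩) with h1 | h1
  · left
    rintro _ ⟨g, hg, rfl⟩
    rw [← sb_eval]
    exact h1 g hg
  · right
    rintro _ ⟨g, hg, rfl⟩
    rw [← sb_eval]
    exact h1 g hg

/-- the determinant as a polynomial -/
noncomputable def detI (R : Type) [CommRing R] (i : ι) : MvPolynomial (Ix n) R :=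
  (Matrix.of fun a b : Fin (n i) => (MvPolynomial.X (⟨i, (a, b)⟩ : Ix n) : MvPolynomial (Ix n) R)).det

theorem detI_aeval (Y : Tup n) (i : ι) : MvPolynomial.aeval (ent Y) (detI Qbar i) = (Y i).det := by
  rw [detI, AlgHom.map_det]
  congr 1
  ext a b
  simp [ent, AlgHom.mapMatrix_apply]

theorem ent_surj (Z : Ix n → ℂ) : ∃ Y : Tup n, ent Y = Z :=
  ⟨fun i => Matrix.of fun a b => Z ⟨i, (a, b)⟩, rfl⟩

theorem Fam.full [Fintype X] [Fintype ι] [DecidableEq ι] (F : Fam X n) {K : Type} [Field K] [NumberField K]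
    (io : K →+* ℂ) (e : X → K) (he : (fun j => io (e j)) ∈ F.U) {k : ℕ}
    (c : (Ix n → Fin (k + 1)) → Fin k → K)
    (H : ∀ g ∈ F.G, poly (fun l a => io (c l a)) (fun a => tpi ^ (a : ℕ)) (g * F.P fun j => io (e j)) = 0)
    {g : Tup n} (hg : g ∈ F.G) {z : ℂ} (hz : z ≠ 0) :
    poly (fun l a => io (c l a)) (fun a => (z ^ 2 * tpi) ^ (a : ℕ)) (tw F.w z (g * F.P fun j => io (e j))) = 0 := by
  classical
  set x : X → Qbar := fun j => ioQ io (e j) with hxdef
  have hx : (fun j => ((x j : Qbar) : ℂ)) = fun j => io (e j) := by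
    funext j
    exact ioQ_coe io (e j)
  have hxU : (fun j => ((x j : Qbar) : ℂ)) ∈ F.U := by rw [hx]; exact he
  have halg := F.alg x hxU
  have hunit := F.unit x hxU
  rw [hx] at halg hunit
  choose! δ hδ using halg
  set P := F.P fun j => io (e j) with hP
  let 𝓔 : Set (MvPolynomial (Option (Ix n)) Qbar) :=
    (fun Fk : MvPolynomial (Ix n) Qbar × ℕ => MvPolynomial.rename some Fk.1 -
      MvPolynomial.C (δ Fk) * MvPolynomial.X none ^ Fk.2) '' F.I
  have hE : ∀ (μ : ℂ) (Y : Ix n → ℂ) (Fk : MvPolynomial (Ix n) Qbar × ℕ),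
      MvPolynomial.aeval (pt μ Y) (MvPolynomial.rename some Fk.1 -
        MvPolynomial.C (δ Fk) * MvPolynomial.X none ^ Fk.2) =
      MvPolynomial.aeval Y Fk.1 - (δ Fk : ℂ) * μ ^ Fk.2 := by
    intro μ Y Fk
    rw [map_sub, map_mul, map_pow, MvPolynomial.aeval_X, MvPolynomial.aeval_C, MvPolynomial.aeval_rename]
    rfl
  let gd : MvPolynomial (Option (Ix n)) Qbar := ∏ i, MvPolynomial.rename some (detI Qbar i)
  have hgd : ∀ (μ : ℂ) (Y : Tup n), MvPolynomial.aeval (pt μ (ent Y)) gd = ∏ i, (Y i).det := by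
    intro μ Y
    simp only [gd, map_prod]
    refine Finset.prod_congr rfl fun i _ => ?_
    rw [MvPolynomial.aeval_rename]
    exact detI_aeval Y i
  let D : MvPolynomial (Option (Ix n)) Qbar := ∑ l : Ix n → Fin (k + 1),
    (∑ a : Fin k, MvPolynomial.X none ^ (a : ℕ) * MvPolynomial.C (ioQ io (c l a))) *
      ∏ y, MvPolynomial.X (some y) ^ (l y : ℕ)
  have hD : ∀ (μ : ℂ) (Y : Tup n), MvPolynomial.aeval (pt μ (ent Y)) D =
      poly (fun l a => io (c l a)) (fun a => μ ^ (a : ℕ)) Y := by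
    intro μ Y
    simp only [D, map_sum, map_mul, map_prod, map_pow, MvPolynomial.aeval_X, MvPolynomial.aeval_C, pt, Option.elim,
      poly]
    rfl
  have hdet : ∀ (z : ℂ), z ≠ 0 → ∀ Y : Tup n, ∏ i, (Y i).det ≠ 0 → ∏ i, (tw F.w z Y i).det ≠ 0 := by
    intro z hz Y hY
    rw [Finset.prod_ne_zero_iff] at hY ⊢
    intro i hi
    show (z ^ F.w i • Y i).det ≠ 0
    rw [Matrix.det_smul]
    exact mul_ne_zero (pow_ne_zero _ (pow_ne_zero _ hz)) (hY i hi)
  have key := full_gen 𝓔 gd (fun q => F.w q.1) ?_ D ?_ (z ^ 2 * tpi) (mul_ne_zero (pow_ne_zero _ hz) BM.tpi_ne)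
    (ent (tw F.w z (g * P))) ?_ ?_
  · rw [hD] at key
    exact key
  · -- the torsor is stable under the homotheties
    intro z μ Z hz hμ h1 h2
    obtain ⟨Y, rfl⟩ := ent_surj Z
    have h3 : (fun t : Ix n => z ^ F.w t.1 * ent Y t) = ent (tw F.w z Y) := by
      funext t
      simp [ent, tw]
    rw [h3]
    constructor
    · rintro _ ⟨Fk, hFk, rfl⟩
      have h4 := h1 _ ⟨Fk, hFk, rfl⟩
      rw [hE] at h4 ⊢
      rw [F.hom Fk hFk z Y hz]
      linear_combination z ^ (2 * Fk.2) * h4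
    · rw [hgd] at h2 ⊢
      exact hdet z hz Y h2
  · -- the points with multiplier `2 π i`
    intro Z h1 h2
    obtain ⟨Y, rfl⟩ := ent_surj Z
    rw [hgd, Finset.prod_ne_zero_iff] at h2
    rw [hD]
    obtain ⟨g', hg', hgY⟩ := F.sep Y P (fun i => h2 i (Finset.mem_univ i)) hunit (fun Fk hFk => by
      have h4 := h1 _ ⟨Fk, hFk, rfl⟩
      rw [hE] at h4
      rw [hδ Fk hFk]
      exact sub_eq_zero.1 h4)
    rw [hgY]
    exact H g' hg'
  · rintro _ ⟨Fk, hFk, rfl⟩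
    rw [hE, F.hom Fk hFk z _ hz, F.inv Fk hFk g hg, hδ Fk hFk]
    ring
  · rw [hgd]
    refine hdet z hz _ ?_
    rw [Finset.prod_ne_zero_iff]
    intro i _
    show (g i * P i).det ≠ 0
    rw [Matrix.det_mul]
    exact mul_ne_zero (F.unitG g hg i) (hunit i)

theorem Fam.exceptional_sub [Fintype X] [Fintype ι] [DecidableEq ι] (F : Fam X n) (k : ℕ) (hk : 0 < k) (K : Type)
    [Field K] [NumberField K] (io : K →+* ℂ) (ξ : Fin k → ℂ) (T : ℝ) : F.Exceptional k K io ξ T ⊆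
      GS.ExcI k F.U F.f (InnerM F.U k) K io ξ (k : ℝ) T ∪
      GS.ExcI k F.U F.f (InnerM F.U k) K io (fun a : Fin k => tpi ^ (a : ℕ)) (k : ℝ) T := by
  rintro e ⟨h1, h2, h3⟩
  by_contra hcon
  rw [Set.mem_union, not_or] at hcon
  obtain ⟨h4, h5⟩ := hcon
  apply h3
  have hU := innerM_sub F.U hk h2
  intro c hc
  have hc' : ∀ l i (φ : K →+* ℂ), ‖φ (c l i : K)‖ ≤ T ^ (k : ℝ) := by
    intro l i φ
    rw [Real.rpow_natCast]
    exact hc l i φ
  have key : ∀ w : Fin k → ℂ, e ∉ GS.ExcI k F.U F.f (InnerM F.U k) K io w (k : ℝ) T →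
      poly (fun l a => io (c l a : K)) w (F.P fun j => io (e j)) = 0 →
      ∀ g ∈ F.G, poly (fun l a => io (c l a : K)) w (g * F.P fun j => io (e j)) = 0 := by
    intro w hw hw0 g hg
    by_contra hne
    refine hw ⟨h1, h2, c, hc', hw0, (fun g => ent (g * F.P fun j => io (e j))) '' F.G, F.irrS _, ⟨1, F.one, ?_⟩, ?_,
      ent (g * F.P fun j => io (e j)), ⟨g, hg, rfl⟩, hne⟩
    · show ent (1 * F.P fun j => io (e j)) = _
      rw [one_mul]
      rfl
    · rintro _ ⟨g, hg, rfl⟩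
      exact F.orbit hU hg
  refine ⟨key ξ h4, fun h6 g hg z hz => ?_⟩
  exact F.full io e hU (fun l a => (c l a : K)) (key _ h5 h6) hg hz

theorem Fam.main [Fintype X] [DecidableEq X] [Nonempty X] [Fintype ι] [DecidableEq ι] (F : Fam X n) :
    GS.Few (X := X) fun K _ _ io k ξ T => F.Exceptional k K io ξ T := by
  refine GS.few_of _ (fun K _ _ io k ξ T s hs => hs.1) fun k ε hk hε => ?_
  have hf : ∀ q, AnalyticOnNhd ℂ (F.f q) F.U := fun q => F.an q.1 q.2.1 q.2.2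
  obtain ⟨D, C, T₀, hC, hT₀, H⟩ := GS.comp F.conn F.isOpen F.nonempty hf
    (InnerM F.U k) (innerM_compact _ _) (innerM_sub _ hk) k (Fin k) k (k : ℝ) ε hε
  refine ⟨D, 2 * C, T₀, by positivity, hT₀, fun K _ _ hK io ξ T hT0 => ?_⟩
  have h1 := (H K hK io ξ T hT0).union (H K hK io (fun a : Fin k => tpi ^ (a : ℕ)) T hT0)
  rw [← Set.image_union] at h1
  refine h1.mono le_rfl ?_ (Set.image_mono (F.exceptional_sub k hk K io ξ T))
  have h2 : (0 : ℝ) ≤ C * T ^ ε := by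
    have : (0 : ℝ) < T := by linarith
    positivity
  apply Nat.le_floor
  push_cast
  have h3 := Nat.floor_le h2
  linarith

end Pool.Agent.Run7.h10.OR
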