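import Pool.Agent.Run7.h10.OR.Cartan

/-!
# The special orthogonal group is irreducible
-/

set_option autoImplicit false
set_option linter.unusedSectionVars false

open Matrix Polynomial

namespace Pool.Agent.Run7.h10.OR

variable {n : ℕ} {J : Matrix (Fin n) (Fin n) ℂ}

/-- the value of a matrix of polynomials -/
noncomputable def ev (t : ℂ) (G : Matrix (Fin n) (Fin n) ℂ[X]) : Matrix (Fin n) (Fin n) ℂ := G.map (Polynomial.eval t)

theorem ev_mul (t : ℂ) (G H : Matrix (Fin n) (Fin n) ℂ[X]) : ev t (G * H) = ev t G * ev t H :=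
  Matrix.map_mul (f := Polynomial.evalRingHom t)

theorem ev_C (t : ℂ) (M : Matrix (Fin n) (Fin n) ℂ) : ev t (M.map Polynomial.C) = M := by
  ext a b
  simp [ev]

/-- joined to `1` by rational paths in the special orthogonal group -/
def Reach (J g : Matrix (Fin n) (Fin n) ℂ) : Prop :=
  ∃ (G : Matrix (Fin n) (Fin n) ℂ[X]) (d : ℂ[X]), d.eval 0 ≠ 0 ∧ d.eval 1 ≠ 0 ∧ ev 0 G = d.eval 0 • (1 : Matrix _ _ ℂ) ∧
    ev 1 G = d.eval 1 • g ∧ ∀ t, d.eval t ≠ 0 → ∃ h : Matrix (Fin n) (Fin n) ℂ, ev t G = d.eval t • h ∧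
      hᵀ * J * h = J ∧ h.det = 1

theorem Reach.one : Reach J (1 : Matrix (Fin n) (Fin n) ℂ) := by
  refine ⟨1, 1, by simp, by simp, ?_, ?_, fun t _ => ⟨1, ?_, by simp, by simp⟩⟩ <;>
  · ext a b
    simp only [ev, Matrix.map_apply, Polynomial.eval_one, one_smul]
    rw [Matrix.one_apply, Matrix.one_apply]
    split_ifs <;> simp

theorem Reach.mul {g h : Matrix (Fin n) (Fin n) ℂ} (hg : Reach J g) (hh : Reach J h) : Reach J (g * h) := by
  obtain ⟨G, d, h1, h2, h3, h4, h5⟩ := hg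
  obtain ⟨H, e, k1, k2, k3, k4, k5⟩ := hh
  refine ⟨G * H, d * e, ?_, ?_, ?_, ?_, ?_⟩
  · rw [Polynomial.eval_mul]
    exact mul_ne_zero h1 k1
  · rw [Polynomial.eval_mul]
    exact mul_ne_zero h2 k2
  · rw [ev_mul, h3, k3, Polynomial.eval_mul, Matrix.smul_mul, Matrix.mul_smul, Matrix.one_mul, smul_smul]
  · rw [ev_mul, h4, k4, Polynomial.eval_mul, Matrix.smul_mul, Matrix.mul_smul, smul_smul]
  · intro t ht
    rw [Polynomial.eval_mul, mul_ne_zero_iff] at ht
    obtain ⟨a, a1, a2, a3⟩ := h5 t ht.1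
    obtain ⟨b, b1, b2, b3⟩ := k5 t ht.2
    refine ⟨a * b, ?_, iso_mul a2 b2, by rw [Matrix.det_mul, a3, b3, one_mul]⟩
    rw [ev_mul, a1, b1, Polynomial.eval_mul, Matrix.smul_mul, Matrix.mul_smul, smul_smul]

theorem Reach.two (hJ : Jᵀ = J) {u v : Fin n → ℂ} (hu : bf J u u ≠ 0) (hv : bf J v v ≠ 0) :
    Reach J (rf J v * rf J u) := by
  let W : Fin n → ℂ[X] := fun i => C (u i) + X * C (v i - u i)
  let w : ℂ → Fin n → ℂ := fun t i => u i + t * (v i - u i)
  let d : ℂ[X] := W ⬝ᵥ (J.map C *ᵥ W)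
  have hd : ∀ t, d.eval t = bf J (w t) (w t) := by
    intro t
    simp only [d, W, w, bf, dotProduct, mulVec, Polynomial.eval_finsetSum, Polynomial.eval_mul, Polynomial.eval_add,
      Polynomial.eval_C, Polynomial.eval_X, Matrix.map_apply]
  let G : Matrix (Fin n) (Fin n) ℂ[X] :=
    (Matrix.of fun i j => (if i = j then d else 0) - 2 * (W i * ∑ k, W k * C (J k j))) * (rf J u).map C
  have hG : ∀ t, ev t G = (bf J (w t) (w t) • (1 : Matrix (Fin n) (Fin n) ℂ) - (2 : ℂ) • ro J (w t) (w t)) * rf J u := by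
    intro t
    rw [ev_mul, ev_C]
    congr 1
    ext i j
    simp only [ev, Matrix.map_apply, Matrix.of_apply, Matrix.sub_apply, Matrix.smul_apply, Polynomial.eval_sub,
      Polynomial.eval_mul, Polynomial.eval_ofNat, Polynomial.eval_finsetSum, Polynomial.eval_C, ro, vecMulVec_apply,
      vecMul, dotProduct, smul_eq_mul, Matrix.one_apply]
    congr 1
    · split_ifs
      · rw [hd, mul_one]
      · simp
    · simp only [W, w, Polynomial.eval_add, Polynomial.eval_mul, Polynomial.eval_C, Polynomial.eval_X]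
  have hG' : ∀ t, bf J (w t) (w t) ≠ 0 → ev t G = bf J (w t) (w t) • (rf J (w t) * rf J u) := by
    intro t ht
    rw [hG, ← Matrix.smul_mul]
    congr 1
    unfold rf
    rw [smul_sub, smul_smul, mul_div_cancel₀ _ ht]
  have hw0 : w 0 = u := by
    funext i
    simp [w]
  have hw1 : w 1 = v := by
    funext i
    simp [w]
  refine ⟨G, d, ?_, ?_, ?_, ?_, ?_⟩
  · rw [hd, hw0]
    exact hu
  · rw [hd, hw1]
    exact hv
  · rw [hG' 0 (by rw [hw0]; exact hu), hd, hw0, rf_sq hu]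
  · rw [hG' 1 (by rw [hw1]; exact hv), hd, hw1]
  · intro t ht
    rw [hd] at ht ⊢
    exact ⟨rf J (w t) * rf J u, hG' t ht, iso_mul (rf_iso hJ ht) (rf_iso hJ hu), by
      rw [Matrix.det_mul, rf_det ht, rf_det hu]
      norm_num⟩

theorem reach_all (hJ : Jᵀ = J) (hdet : J.det ≠ 0) {g : Matrix (Fin n) (Fin n) ℂ} (hg : gᵀ * J * g = J)
    (hg1 : g.det = 1) : Reach J g := by
  have key : ∀ g ∈ Submonoid.closure (Rf J), (g.det = 1 → Reach J g) ∧
      (g.det = -1 → ∀ u, bf J u u ≠ 0 → Reach J (g * rf J u)) := by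
    intro g hg
    induction hg using Submonoid.closure_induction_right with
    | one =>
      refine ⟨fun _ => Reach.one, fun h => ?_⟩
      rw [Matrix.det_one] at h
      norm_num at h
    | mul_right x hx y hy ih =>
      obtain ⟨v, hv, rfl⟩ := hy
      rw [Matrix.det_mul, rf_det hv]
      refine ⟨fun h => ih.2 (by linear_combination -h) v hv, fun h u hu => ?_⟩
      rw [Matrix.mul_assoc]
      exact (ih.1 (by linear_combination -h)).mul (Reach.two hJ hu hv)
  exact (key g (cartan hJ hdet hg)).1 hg1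

/-- clearing denominators -/
theorem clr (H : Matrix (Fin n) (Fin n) ℂ[X]) (d : ℂ[X]) (A : MvPolynomial (Fin n × Fin n) ℂ) :
    ∃ (N : ℕ) (a : ℂ[X]), ∀ (t : ℂ) (M : Matrix (Fin n) (Fin n) ℂ), ev t H = d.eval t • M →
      a.eval t = d.eval t ^ N * MvPolynomial.eval (fun q => M q.1 q.2) A := by
  induction A using MvPolynomial.induction_on with
  | C c =>
    refine ⟨0, C c, fun t M _ => ?_⟩
    rw [Polynomial.eval_C, pow_zero, one_mul, MvPolynomial.eval_C]
  | add p q hp hq =>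
    obtain ⟨N, a, ha⟩ := hp
    obtain ⟨N', a', ha'⟩ := hq
    refine ⟨N + N', a * d ^ N' + a' * d ^ N, fun t M h => ?_⟩
    rw [Polynomial.eval_add, Polynomial.eval_mul, Polynomial.eval_mul, Polynomial.eval_pow, Polynomial.eval_pow,
      ha t M h, ha' t M h, map_add]
    ring
  | mul_X p q hp =>
    obtain ⟨N, a, ha⟩ := hp
    refine ⟨N + 1, a * H q.1 q.2, fun t M h => ?_⟩
    have h1 : (H q.1 q.2).eval t = d.eval t * M q.1 q.2 := by
      have h2 := congrFun (congrFun h q.1) q.2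
      rw [ev, Matrix.map_apply, Matrix.smul_apply, smul_eq_mul] at h2
      exact h2
    rw [Polynomial.eval_mul, ha t M h, h1, map_mul, MvPolynomial.eval_X]
    ring

theorem iso_tr {M : Matrix (Fin n) (Fin n) ℂ} : M * J * Mᵀ = J ↔ (Mᵀ)ᵀ * J * Mᵀ = J := by rw [transpose_transpose]

/-- **The special orthogonal group is irreducible**: if a product of two polynomials vanishes on it and the first factor
does not vanish at some element, then the second vanishes everywhere. -/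
theorem so_irr (hJ : Jᵀ = J) (hdet : J.det ≠ 0) (A B : MvPolynomial (Fin n × Fin n) ℂ)
    (h : ∀ M : Matrix (Fin n) (Fin n) ℂ, M * J * Mᵀ = J → M.det = 1 →
      MvPolynomial.eval (fun q => M q.1 q.2) A * MvPolynomial.eval (fun q => M q.1 q.2) B = 0)
    {M₁ M₂ : Matrix (Fin n) (Fin n) ℂ} (h₁ : M₁ * J * M₁ᵀ = J) (d₁ : M₁.det = 1) (h₂ : M₂ * J * M₂ᵀ = J)
    (d₂ : M₂.det = 1) (hA : MvPolynomial.eval (fun q => M₁ q.1 q.2) A ≠ 0) :
    MvPolynomial.eval (fun q => M₂ q.1 q.2) B = 0 := by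
  have hu : IsUnit M₁.det := by rw [d₁]; exact isUnit_one
  have i1 : M₁⁻¹ * M₁ = 1 := nonsing_inv_mul M₁ hu
  have i2 : M₁ * M₁⁻¹ = 1 := mul_nonsing_inv M₁ hu
  have i1t : M₁ᵀ * (M₁⁻¹)ᵀ = 1 := by rw [← transpose_mul, i1, transpose_one]
  have h3 : M₁⁻¹ * J * (M₁⁻¹)ᵀ = J := by
    calc M₁⁻¹ * J * (M₁⁻¹)ᵀ = (M₁⁻¹ * M₁) * J * (M₁ᵀ * (M₁⁻¹)ᵀ) := by
          nth_rewrite 1 [← h₁]
          simp only [Matrix.mul_assoc]
      _ = J := by rw [i1, i1t, Matrix.one_mul, Matrix.mul_one]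
  have hmul : ∀ P Q : Matrix (Fin n) (Fin n) ℂ, P * J * Pᵀ = J → Q * J * Qᵀ = J → (P * Q) * J * (P * Q)ᵀ = J := by
    intro P Q hP hQ
    calc (P * Q) * J * (P * Q)ᵀ = P * (Q * J * Qᵀ) * Pᵀ := by
          rw [transpose_mul]
          simp only [Matrix.mul_assoc]
      _ = J := by rw [hQ, hP]
  have h4 := hmul _ _ h₂ h3
  have d4 : (M₂ * M₁⁻¹).det = 1 := by
    rw [det_mul, d₂, one_mul]
    have := congrArg Matrix.det i1
    rw [det_mul, d₁, mul_one, det_one] at this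
    exact this
  obtain ⟨G, d, k1, k2, k3, k4, k5⟩ := reach_all (g := (M₂ * M₁⁻¹)ᵀ) hJ hdet (iso_tr.1 h4) (by rw [det_transpose, d4])
  set H : Matrix (Fin n) (Fin n) ℂ[X] := Gᵀ * M₁.map C with hH
  have hev : ∀ (t : ℂ) (g : Matrix (Fin n) (Fin n) ℂ), ev t G = d.eval t • g → ev t H = d.eval t • (gᵀ * M₁) := by
    intro t g hg
    rw [hH, ev_mul, ev_C]
    have h5 : ev t Gᵀ = (ev t G)ᵀ := rfl
    rw [h5, hg, transpose_smul, Matrix.smul_mul]
  obtain ⟨N, a, ha⟩ := clr H d A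
  obtain ⟨N', b, hb⟩ := clr H d B
  have hd0 : d ≠ 0 := by
    rintro rfl
    exact k1 Polynomial.eval_zero
  have hprod : a * b * d = 0 := by
    refine Polynomial.funext fun t => ?_
    rw [Polynomial.eval_zero, Polynomial.eval_mul, Polynomial.eval_mul]
    by_cases ht : d.eval t = 0
    · rw [ht, mul_zero]
    · obtain ⟨g, g1, g2, g3⟩ := k5 t ht
      have h6 := hev t g g1
      rw [ha t _ h6, hb t _ h6]
      have h7 : gᵀ * J * (gᵀ)ᵀ = J := by rw [transpose_transpose]; exact g2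
      have h8 := h (gᵀ * M₁) (hmul _ _ h7 h₁) (by rw [det_mul, det_transpose, g3, d₁, one_mul])
      calc d.eval t ^ N * MvPolynomial.eval (fun q => (gᵀ * M₁) q.1 q.2) A *
          (d.eval t ^ N' * MvPolynomial.eval (fun q => (gᵀ * M₁) q.1 q.2) B) * d.eval t =
          d.eval t ^ N * d.eval t ^ N' * d.eval t * (MvPolynomial.eval (fun q => (gᵀ * M₁) q.1 q.2) A *
            MvPolynomial.eval (fun q => (gᵀ * M₁) q.1 q.2) B) := by ring
        _ = 0 := by rw [h8, mul_zero]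
  rcases mul_eq_zero.1 hprod with h5 | h5
  · rcases mul_eq_zero.1 h5 with h6 | h6
    · exfalso
      have h7 := ha 0 _ (hev 0 1 k3)
      rw [h6, Polynomial.eval_zero, transpose_one, Matrix.one_mul] at h7
      exact mul_ne_zero (pow_ne_zero _ k1) hA h7.symm
    · have h7 := hb 1 _ (hev 1 _ k4)
      rw [h6, Polynomial.eval_zero, transpose_transpose, Matrix.mul_assoc, i1, Matrix.mul_one] at h7
      exact (mul_eq_zero.1 h7.symm).resolve_left (pow_ne_zero _ k2)
  · exact absurd h5 hd0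

end Pool.Agent.Run7.h10.OR
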